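import Mathlib

/-!
# A leaky curve with a double eigenvalue: statements of the jobs (MP_e4073d_mp)

`Γ_t` is the curve, symmetric with respect to `x ↦ -x`, which consists of the horizontal pieces
`y = t` for `|x| < del`, `y = 0` for `del < |x| < rad`, `y = -ste` for `|x| > rad`, and of the
vertical walls `x = ± del`, `0 < y < t` and `x = ± rad`, `-ste < y < 0`.  Coupling `α = 1`.

`Q t φ` is the form of the Hamiltonian of `Γ_t` minus the bottom `-1/4` of its essential spectrum.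
For `t = 0` at most one even state lies below `0`, for all `t` there is an odd one, and for `t = top`
two even states lie below all odd ones. Hence for some `t` the second even eigenvalue is the first
odd one.
-/

set_option autoImplicit false

open MeasureTheory Filter Topology Complex
open scoped ComplexConjugate InnerProductSpace

namespace Pool.Agent.U469.DE

noncomputable section

/-- half of the width of the hairpin -/
def del : ℝ := 1 / 20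

/-- height of the steps -/
def ste : ℝ := 1 / 4

/-- position of the steps -/
def rad : ℝ := 102

/-- largest height of the hairpin -/
def top : ℝ := 20

/-- `C¹` functions with compact support -/
def Core : Submodule ℂ (ℝ × ℝ → ℂ) where
  carrier := {φ | ContDiff ℝ 1 φ ∧ HasCompactSupport φ}
  add_mem' := fun ha hb => ⟨ha.1.add hb.1, ha.2.add hb.2⟩
  zero_mem' := ⟨contDiff_const, HasCompactSupport.zero⟩
  smul_mem' := fun _ _ h => ⟨contDiff_const.smul h.1, h.2.smul_left⟩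

/-- the partial derivative in the first variable -/
def dX (φ : ℝ × ℝ → ℂ) (p : ℝ × ℝ) : ℂ := fderiv ℝ φ p (1, 0)

/-- the partial derivative in the second variable -/
def dY (φ : ℝ × ℝ → ℂ) (p : ℝ × ℝ) : ℂ := fderiv ℝ φ p (0, 1)

/-- the height of the horizontal piece of `Γ_t` over `x` -/
def hgt (t x : ℝ) : ℝ := if |x| < del then t else if |x| < rad then 0 else -ste

/-- the walls of `Γ_t` at the height `y` are at `± pos y` -/
def pos (y : ℝ) : ℝ := if y < 0 then rad else del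

def nrm (φ : ℝ × ℝ → ℂ) : ℝ := ∫ p : ℝ × ℝ, ‖φ p‖ ^ 2

def gX (φ : ℝ × ℝ → ℂ) : ℝ := ∫ p : ℝ × ℝ, ‖dX φ p‖ ^ 2

def gY (φ : ℝ × ℝ → ℂ) : ℝ := ∫ p : ℝ × ℝ, ‖dY φ p‖ ^ 2

def hor (t : ℝ) (φ : ℝ × ℝ → ℂ) : ℝ := ∫ x : ℝ, ‖φ (x, hgt t x)‖ ^ 2

def wal (t : ℝ) (φ : ℝ × ℝ → ℂ) : ℝ :=
  ∫ y in Set.Ioo (-ste) t, (‖φ (pos y, y)‖ ^ 2 + ‖φ (-pos y, y)‖ ^ 2)

def Q (t : ℝ) (φ : ℝ × ℝ → ℂ) : ℝ := gX φ + gY φ + nrm φ / 4 - hor t φ - wal t φ

def IsEven (φ : ℝ × ℝ → ℂ) : Prop := ∀ x y, φ (-x, y) = φ (x, y)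

def IsOdd (φ : ℝ × ℝ → ℂ) : Prop := ∀ x y, φ (-x, y) = -φ (x, y)

/-- the functional of the codimension one condition -/
def ell (φ : ℝ × ℝ → ℂ) : ℂ := ∫ y : ℝ, φ (rad, y) * ((Real.exp (-(|y + ste| / 2)) : ℝ) : ℂ)

/-- (HOR) slices in `y`: `|φ(x,c)|² ≤ ∫ |φ| |∂_y φ| dy` and Young -/
def JobHor : Prop := ∀ φ ∈ Core, ∀ t η : ℝ, 0 < η → hor t φ ≤ (η * gY φ + nrm φ / η) / 2

/-- (WAL) slices in `x`: `|φ(a,y)|² ≤ ∫ |φ| |∂_x φ| dx` and Young, two walls for each `y` -/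
def JobWal : Prop := ∀ φ ∈ Core, ∀ t η : ℝ, 0 < η → wal t φ ≤ η * gX φ + nrm φ / η

/-- (CONT) the forms depend continuously on `t` -/
def JobCont : Prop := ∀ φ ∈ Core, ∀ s ∈ Set.Icc 0 top, ∀ t ∈ Set.Icc 0 top,
  |hor s φ + wal s φ - (hor t φ + wal t φ)| ≤ 4 * √|s - t| * (nrm φ + gX φ + gY φ)

/-- (ODD) for odd functions: the walls at `± del` cost at most `del gX`, the walls at `± rad` at
most `gX + nrm / 4` (the two kinds of walls belong to different `y`), the horizontal pieces at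
most `gY + nrm / 4` -/
def JobOdd : Prop := ∀ φ ∈ Core, IsOdd φ → ∀ t ∈ Set.Icc 0 top, -(nrm φ / 4) ≤ Q t φ

/-- (EVEN) at most one even state for `t = 0` -/
def JobEven : Prop := ∃ C : ℝ, 0 ≤ C ∧ ∀ φ ∈ Core, IsEven φ → -(C * ‖ell φ‖ ^ 2) ≤ Q 0 φ

/-- (TODD) an odd test function -/
def JobTestOdd : Prop := ∃ φ ∈ Core, IsOdd φ ∧ ∀ t ∈ Set.Icc 0 top, Q t φ < 0

/-- (TEVEN) two even test functions with supports in `0 ≤ y ≤ 10` and `10 ≤ y ≤ 20` -/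
def JobTestEven : Prop := ∃ φ ∈ Core, ∃ ψ ∈ Core, IsEven φ ∧ IsEven ψ ∧
  (∀ x y, y ∉ Set.Icc 0 10 → φ (x, y) = 0) ∧ (∀ x y, y ∉ Set.Icc 10 20 → ψ (x, y) = 0) ∧
  Q top φ < -(nrm φ / 4) ∧ Q top ψ < -(nrm ψ / 4)

/-- the trace on the walls, `σ = ± 1` chooses the side -/
def wfun (σ t : ℝ) (φ : ℝ × ℝ → ℂ) : ℝ → ℂ :=
  Set.indicator (Set.Ioo (-ste) t) fun y => φ (σ * pos y, y)

/-- (CPT) compactness: the trace on the walls is the limit of operators of finite rank in `L²(ℝ²)`,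
uniformly for bounded `H¹` norm (take the averages of `φ` over squares with a side on the wall) -/
def JobCpt : Prop := ∀ σ t ε : ℝ, (σ = 1 ∨ σ = -1) → t ∈ Set.Icc 0 top → 0 < ε →
  ∃ K : Lp ℂ 2 (volume : Measure (ℝ × ℝ)) →L[ℂ] Lp ℂ 2 (volume : Measure ℝ), IsCompactOperator K ∧
    ∀ φ ∈ Core, ∀ (h1 : MemLp φ 2 (volume : Measure (ℝ × ℝ))) (h2 : MemLp (wfun σ t φ) 2 volume),
      ‖h2.toLp - K h1.toLp‖ ^ 2 ≤ ε * (nrm φ + gX φ + gY φ)

/-- the abscissa of the point of the curve at the arc length `r ≥ 0` from the top point `(0, t)` -/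
def cX (t r : ℝ) : ℝ :=
  min r del + max 0 (min (r - del - t) (rad - del)) + max 0 (r - rad - t - ste)

/-- the vertical length of the curve up to the arc length `r ≥ 0` -/
def cV (t r : ℝ) : ℝ := max 0 (min (r - del) t) + max 0 (min (r - rad - t) ste)

/-- the curve `Γ_t` parametrised by its arc length -/
def gam (t s : ℝ) : ℝ × ℝ := (if 0 ≤ s then cX t s else -cX t (-s), t - cV t |s|)

/-- (GEOI) the integral along the curve -/
def JobGeoInt : Prop := ∀ t ∈ Set.Icc 0 top, ∀ F : ℝ × ℝ → ℂ, Continuous F → HasCompactSupport F →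
  ∫ s : ℝ, F (gam t s) = (∫ x : ℝ, F (x, hgt t x)) +
    ∫ y in Set.Ioo (-ste) t, (F (pos y, y) + F (-pos y, y))

/-- the euclidean distance in the plane -/
def dist2 (p q : ℝ × ℝ) : ℝ := √((p.1 - q.1) ^ 2 + (p.2 - q.2) ^ 2)

/-- `γ` is continuous and piecewise affine, with speed one -/
def IsArcLength (γ : ℝ → ℝ × ℝ) : Prop := Continuous γ ∧ ∃ S : Finset ℝ, ∀ s ∉ S,
  ∃ v : ℝ × ℝ, v.1 ^ 2 + v.2 ^ 2 = 1 ∧ ∀ᶠ r in 𝓝 s, γ r = γ s + (r - s) • v

/-- (a1) -/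
def ChordArc (γ : ℝ → ℝ × ℝ) : Prop :=
  ∃ c : ℝ, 0 < c ∧ c < 1 ∧ ∀ s s' : ℝ, c * |s - s'| ≤ dist2 (γ s) (γ s')

/-- (a2) -/
def AsymptoticallyStraight (γ : ℝ → ℝ × ℝ) : Prop :=
  ∃ d μ ω : ℝ, 0 < d ∧ 1 / 2 < μ ∧ 0 < ω ∧ ω < 1 ∧ ∀ s s' : ℝ, s ≠ s' → ω < s / s' → s / s' < ω⁻¹ →
    1 - dist2 (γ s) (γ s') / |s - s'| ≤ d * (1 + |s + s'| ^ (2 * μ)) ^ (-(1 / 2) : ℝ)

/-- (a3) -/
def NotStraight (γ : ℝ → ℝ × ℝ) : Prop := ∃ s s' : ℝ, dist2 (γ s) (γ s') < |s - s'|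

/-- (GEOP) the properties of the curve -/
def JobGeoProp : Prop := ∀ t ∈ Set.Ioo 0 top, IsArcLength (gam t) ∧ ChordArc (gam t) ∧
  AsymptoticallyStraight (gam t) ∧ NotStraight (gam t)

end

end Pool.Agent.U469.DE
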