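import Mathlib

set_option autoImplicit false

open Filter Topology Complex
open scoped ComplexConjugate InnerProductSpace

namespace Pool.Agent.U469.DE.Abs

/-- a form `‖D u‖² + ‖N u‖² / 4 - ‖X u‖² - ‖K u‖²` -/
structure Forms (V H F1 F2 F3 : Type) [NormedAddCommGroup V] [InnerProductSpace ℂ V]
    [NormedAddCommGroup H] [InnerProductSpace ℂ H] [NormedAddCommGroup F1] [InnerProductSpace ℂ F1]
    [NormedAddCommGroup F2] [InnerProductSpace ℂ F2] [NormedAddCommGroup F3]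
    [InnerProductSpace ℂ F3] where
  N : V →L[ℂ] H
  D : V →L[ℂ] F1
  X : V →L[ℂ] F2
  K : V →L[ℂ] F3

section
variable {V H F1 F2 F3 : Type} [NormedAddCommGroup V] [InnerProductSpace ℂ V]
    [NormedAddCommGroup H] [InnerProductSpace ℂ H] [NormedAddCommGroup F1] [InnerProductSpace ℂ F1]
    [NormedAddCommGroup F2] [InnerProductSpace ℂ F2] [NormedAddCommGroup F3]
    [InnerProductSpace ℂ F3]

/-- the quadratic form -/
noncomputable def Forms.q (f : Forms V H F1 F2 F3) (u : V) : ℝ :=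
  ‖f.D u‖ ^ 2 + ‖f.N u‖ ^ 2 / 4 - ‖f.X u‖ ^ 2 - ‖f.K u‖ ^ 2

/-- the sesquilinear form -/
noncomputable def Forms.B (f : Forms V H F1 F2 F3) (u v : V) : ℂ :=
  ⟪f.D u, f.D v⟫_ℂ + ⟪f.N u, f.N v⟫_ℂ / 4 - ⟪f.X u, f.X v⟫_ℂ - ⟪f.K u, f.K v⟫_ℂ

theorem Forms.q_add (f : Forms V H F1 F2 F3) (u v : V) :
    f.q (u + v) = f.q u + f.q v + 2 * (f.B u v).re := by
  unfold Forms.q Forms.B
  simp only [map_add, @norm_add_sq ℂ, RCLike.re_eq_complex_re, Complex.add_re, Complex.sub_re]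
  have h4 : (⟪f.N u, f.N v⟫_ℂ / 4).re = (⟪f.N u, f.N v⟫_ℂ).re / 4 := by
    rw [show (4 : ℂ) = ((4 : ℝ) : ℂ) by norm_num, Complex.div_ofReal_re]
  rw [h4]
  ring

theorem Forms.q_smul (f : Forms V H F1 F2 F3) (c : ℂ) (u : V) : f.q (c • u) = ‖c‖ ^ 2 * f.q u := by
  unfold Forms.q
  simp only [map_smul, norm_smul, mul_pow]
  ring

theorem Forms.B_smul_right (f : Forms V H F1 F2 F3) (c : ℂ) (u v : V) :
    f.B u (c • v) = c * f.B u v := by
  unfold Forms.B
  simp only [map_smul, inner_smul_right]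
  ring

theorem Forms.B_smul_left (f : Forms V H F1 F2 F3) (c : ℂ) (u v : V) :
    f.B (c • u) v = conj c * f.B u v := by
  unfold Forms.B
  simp only [map_smul, inner_smul_left]
  ring

theorem Forms.B_add_left (f : Forms V H F1 F2 F3) (u u' v : V) :
    f.B (u + u') v = f.B u v + f.B u' v := by
  unfold Forms.B
  simp only [map_add, inner_add_left]
  ring

theorem Forms.B_conj (f : Forms V H F1 F2 F3) (u v : V) : conj (f.B u v) = f.B v u := by
  unfold Forms.B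
  simp only [map_add, map_sub, map_div₀, inner_conj_symm]
  have : conj (4 : ℂ) = 4 := Complex.conj_ofNat 4
  rw [this]

theorem Forms.q_cont (f : Forms V H F1 F2 F3) : Continuous f.q := by
  unfold Forms.q
  fun_prop

theorem Forms.q_zero (f : Forms V H F1 F2 F3) : f.q 0 = 0 := by
  unfold Forms.q; simp

/-- the parallelogram identity -/
theorem Forms.par (f : Forms V H F1 F2 F3) (u v : V) :
    f.q (u - v) + f.q (u + v) = 2 * f.q u + 2 * f.q v := by
  have h1 := f.q_add u v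
  have h2 := f.q_add u ((-1 : ℂ) • v)
  rw [f.q_smul, f.B_smul_right] at h2
  have h3 : u + (-1 : ℂ) • v = u - v := by simp [sub_eq_add_neg]
  rw [h3] at h2
  rw [h1, h2]
  simp
  ring

variable [CompleteSpace V]

/-- a minimiser of the form below the essential spectrum -/
theorem exists_min (f : Forms V H F1 F2 F3) (S : Submodule ℂ V) (hS : IsClosed (S : Set V))
    {m C : ℝ} (hm : m < 0) (hC : 0 < C) (h1 : ∀ u ∈ S, m * ‖f.N u‖ ^ 2 ≤ f.q u)
    (h2 : ∀ ε : ℝ, 0 < ε → ∃ u ∈ S, ‖f.N u‖ = 1 ∧ f.q u < m + ε)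
    (h4 : ∀ u, ‖f.X u‖ ^ 2 ≤ ‖f.D u‖ ^ 2 + ‖f.N u‖ ^ 2 / 4)
    (h5 : ∀ u, ‖u‖ ^ 2 ≤ C * (f.q u + C * ‖f.N u‖ ^ 2)) (h6 : IsCompactOperator f.K) :
    ∃ u ∈ S, ‖f.N u‖ = 1 ∧ f.q u = m ∧ ∀ v ∈ S, f.B v u = m * ⟪f.N v, f.N u⟫_ℂ := by
  have hex : ∀ n : ℕ, ∃ u ∈ S, ‖f.N u‖ = 1 ∧ f.q u < m + 1 / ((n : ℝ) + 1) := fun n =>
    h2 _ (by positivity)
  choose w hwS hwN hwq using hex
  have hbd : ∀ n, w n ∈ Metric.closedBall (0 : V) (√(C * (1 + C))) := by
    intro n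
    rw [mem_closedBall_zero_iff]
    apply Real.le_sqrt_of_sq_le
    refine (h5 (w n)).trans ?_
    rw [hwN]
    have : f.q (w n) ≤ 1 := by
      have := hwq n
      have h7 : 1 / ((n : ℝ) + 1) ≤ 1 := by
        rw [div_le_one (by positivity)]; linarith [Nat.cast_nonneg (α := ℝ) n]
      linarith
    have : f.q (w n) + C * 1 ^ 2 ≤ 1 + C := by linarith
    exact mul_le_mul_of_nonneg_left this hC.le
  obtain ⟨Z, hZ, hZK⟩ := h6.image_closedBall_subset_compact (f := (f.K : V →ₗ[ℂ] F3)) (√(C * (1 + C)))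
  obtain ⟨z, -, φ, hφ, hφz⟩ := hZ.tendsto_subseq (x := fun n => f.K (w n))
    (fun n => hZK ⟨w n, hbd n, rfl⟩)
  have hK : Tendsto (fun p : ℕ × ℕ => ‖f.K (w (φ p.1)) - f.K (w (φ p.2))‖ ^ 2) atTop (𝓝 0) := by
    have ha : Tendsto (fun p : ℕ × ℕ => f.K (w (φ p.1)) - f.K (w (φ p.2))) atTop (𝓝 (z - z)) := by
      rw [← prod_atTop_atTop_eq]
      exact (hφz.comp tendsto_fst).sub (hφz.comp tendsto_snd)
    have hb := (ha.norm).pow 2
    simpa using hb
  have he : Tendsto (fun p : ℕ × ℕ => 2 * (1 / ((φ p.1 : ℝ) + 1)) + 2 * (1 / ((φ p.2 : ℝ) + 1)))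
      atTop (𝓝 0) := by
    have h0 : Tendsto (fun n : ℕ => 2 * (1 / ((φ n : ℝ) + 1))) atTop (𝓝 (2 * 0)) :=
      (tendsto_one_div_add_atTop_nhds_zero_nat.comp hφ.tendsto_atTop).const_mul 2
    have : Tendsto (fun p : ℕ × ℕ => 2 * (1 / ((φ p.1 : ℝ) + 1)) + 2 * (1 / ((φ p.2 : ℝ) + 1)))
        (atTop ×ˢ atTop) (𝓝 (2 * 0 + 2 * 0)) := (h0.comp tendsto_fst).add (h0.comp tendsto_snd)
    rw [prod_atTop_atTop_eq] at this
    simpa using this
  set e : ℕ × ℕ → ℝ := fun p => 2 * (1 / ((φ p.1 : ℝ) + 1)) + 2 * (1 / ((φ p.2 : ℝ) + 1)) with hedef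
  set k : ℕ × ℕ → ℝ := fun p => ‖f.K (w (φ p.1)) - f.K (w (φ p.2))‖ ^ 2 with hkdef
  have hmain : ∀ p : ℕ × ℕ, ‖w (φ p.1) - w (φ p.2)‖ ^ 2 ≤ C * (e p + C * ((e p + k p) / (-m))) := by
    intro p
    set u := w (φ p.1)
    set v := w (φ p.2)
    have hpar := f.par u v
    have hs := h1 (u + v) (S.add_mem (hwS _) (hwS _))
    have hN : ‖f.N (u - v)‖ ^ 2 + ‖f.N (u + v)‖ ^ 2 = 4 := by
      have := parallelogram_law_with_norm ℂ (f.N u) (f.N v)
      rw [map_sub, map_add]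
      have e1 : ‖f.N u‖ = 1 := hwN _
      have e2 : ‖f.N v‖ = 1 := hwN _
      rw [e1, e2] at this
      nlinarith
    have hq1 : f.q u < m + 1 / ((φ p.1 : ℝ) + 1) := hwq _
    have hq2 : f.q v < m + 1 / ((φ p.2 : ℝ) + 1) := hwq _
    have hqd : f.q (u - v) ≤ e p + m * ‖f.N (u - v)‖ ^ 2 := by
      have : ‖f.N (u + v)‖ ^ 2 = 4 - ‖f.N (u - v)‖ ^ 2 := by linarith
      rw [this] at hs
      simp only [hedef]
      nlinarith
    have hlow : -(k p) ≤ f.q (u - v) := by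
      have h8 := h4 (u - v)
      simp only [hkdef]
      have : f.K (w (φ p.1)) - f.K (w (φ p.2)) = f.K (u - v) := by rw [map_sub]
      rw [this]
      unfold Forms.q
      linarith
    have hm' : 0 < -m := by linarith
    have hNd : ‖f.N (u - v)‖ ^ 2 ≤ (e p + k p) / (-m) := by
      rw [le_div_iff₀ hm']
      nlinarith
    have hq0 : f.q (u - v) ≤ e p := by
      have : m * ‖f.N (u - v)‖ ^ 2 ≤ 0 := mul_nonpos_of_nonpos_of_nonneg hm.le (by positivity)
      linarith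
    calc ‖u - v‖ ^ 2 ≤ C * (f.q (u - v) + C * ‖f.N (u - v)‖ ^ 2) := h5 _
      _ ≤ C * (e p + C * ((e p + k p) / (-m))) := by gcongr
  have hlim : Tendsto (fun p : ℕ × ℕ => C * (e p + C * ((e p + k p) / (-m)))) atTop (𝓝 0) := by
    have : Tendsto (fun p : ℕ × ℕ => C * (e p + C * ((e p + k p) / (-m)))) atTop
        (𝓝 (C * (0 + C * ((0 + 0) / (-m))))) :=
      ((he.add (((he.add hK).div_const (-m)).const_mul C))).const_mul C
    simpa using this
  have hcau : CauchySeq (fun n => w (φ n)) := by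
    rw [Metric.cauchySeq_iff']
    intro ε hε
    have h7 := (hlim.eventually (gt_mem_nhds (show (0 : ℝ) < ε ^ 2 by positivity)))
    obtain ⟨⟨a, b⟩, hab⟩ := Filter.eventually_atTop.1 h7
    refine ⟨max a b, fun n hn => ?_⟩
    have h8 := hab (n, max a b) ⟨le_trans (le_max_left _ _) hn, le_max_right _ _⟩
    rw [dist_eq_norm]
    have h9 := hmain (n, max a b)
    simp only at h9
    exact lt_of_pow_lt_pow_left₀ 2 hε.le (h9.trans_lt h8)
  obtain ⟨u, hu⟩ := cauchySeq_tendsto_of_complete hcau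
  have huS : u ∈ S := hS.mem_of_tendsto hu (Eventually.of_forall fun n => hwS _)
  have huN : ‖f.N u‖ = 1 := by
    have h7 : Tendsto (fun n => ‖f.N (w (φ n))‖) atTop (𝓝 ‖f.N u‖) :=
      ((f.N.continuous.tendsto u).comp hu).norm
    have h8 : (fun n => ‖f.N (w (φ n))‖) = fun _ => (1 : ℝ) := by funext n; exact hwN _
    rw [h8] at h7
    exact tendsto_nhds_unique h7 tendsto_const_nhds
  have huq : f.q u = m := by
    apply le_antisymm
    · have h7 : Tendsto (fun n => f.q (w (φ n))) atTop (𝓝 (f.q u)) := (f.q_cont.tendsto u).comp hu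
      have h8 : Tendsto (fun n : ℕ => m + 1 / ((φ n : ℝ) + 1)) atTop (𝓝 (m + 0)) :=
        (tendsto_one_div_add_atTop_nhds_zero_nat.comp hφ.tendsto_atTop).const_add m
      rw [add_zero] at h8
      exact le_of_tendsto_of_tendsto' h7 h8 fun n => (hwq _).le
    · have := h1 u huS
      rw [huN] at this
      linarith
  refine ⟨u, huS, huN, huq, fun v hv => ?_⟩
  -- Euler-Lagrange
  set b : ℂ := f.B v u - m * ⟪f.N v, f.N u⟫_ℂ with hb
  set a : ℝ := f.q v - m * ‖f.N v‖ ^ 2 with ha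
  have ha0 : 0 ≤ a := by have := h1 v hv; linarith
  have hkey : ∀ r : ℝ, 0 < r → 0 ≤ -2 * r * ‖b‖ ^ 2 + r ^ 2 * ‖b‖ ^ 2 * a := by
    intro r hr
    set z : ℂ := -(r : ℂ) * b with hz
    have h7 := h1 (z • v + u) (S.add_mem (S.smul_mem _ hv) huS)
    rw [f.q_add, f.q_smul, f.B_smul_left, map_add, map_smul, @norm_add_sq ℂ, inner_smul_left,
      norm_smul, huq, huN] at h7
    have h8 : ‖z‖ ^ 2 = r ^ 2 * ‖b‖ ^ 2 := by
      rw [hz, norm_mul, norm_neg, Complex.norm_real, Real.norm_eq_abs, mul_pow, sq_abs]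
    have h9 : (conj z * b).re = -r * ‖b‖ ^ 2 := by
      rw [hz, map_mul, map_neg, Complex.conj_ofReal, mul_assoc]
      have : conj b * b = ((‖b‖ ^ 2 : ℝ) : ℂ) := by
        rw [← Complex.normSq_eq_conj_mul_self, Complex.normSq_eq_norm_sq]
      rw [this]
      rw [← Complex.ofReal_neg, ← Complex.ofReal_mul, Complex.ofReal_re]
    have h10 : (conj z * f.B v u).re - m * (conj z * ⟪f.N v, f.N u⟫_ℂ).re = (conj z * b).re := by
      rw [hb, mul_sub, Complex.sub_re]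
      have : conj z * (m * ⟪f.N v, f.N u⟫_ℂ) = m * (conj z * ⟪f.N v, f.N u⟫_ℂ) := by ring
      rw [this, Complex.re_ofReal_mul]
    simp only [RCLike.re_eq_complex_re, mul_pow] at h7
    rw [h8] at h7
    have h11 : 0 ≤ r ^ 2 * ‖b‖ ^ 2 * a + 2 * (conj z * b).re := by
      rw [← h10, ha]
      nlinarith
    rw [h9] at h11
    linarith
  have hb0 : ‖b‖ ^ 2 = 0 := by
    by_contra hne
    have hpos : 0 < ‖b‖ ^ 2 := lt_of_le_of_ne (by positivity) (Ne.symm hne)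
    have h7 := hkey (1 / (a + 1)) (by positivity)
    have h8 : -2 * (1 / (a + 1)) * ‖b‖ ^ 2 + (1 / (a + 1)) ^ 2 * ‖b‖ ^ 2 * a =
        ‖b‖ ^ 2 * (1 / (a + 1)) * (-2 + a / (a + 1)) := by field_simp
    rw [h8] at h7
    have h9 : a / (a + 1) < 1 := by rw [div_lt_one (by positivity)]; linarith
    have h10 : 0 < ‖b‖ ^ 2 * (1 / (a + 1)) := by positivity
    nlinarith
  have : b = 0 := by simpa using hb0
  rw [hb, sub_eq_zero] at this
  exact this

end

end Pool.Agent.U469.DE.Abs
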