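import Pool.Agent.U469.DE.Abs

set_option autoImplicit false

open Filter Topology Complex
open scoped ComplexConjugate InnerProductSpace

namespace Pool.Agent.U469.DE.Abs

section
variable {V H F1 F2 F3 : Type} [NormedAddCommGroup V] [InnerProductSpace ℂ V]
    [NormedAddCommGroup H] [InnerProductSpace ℂ H] [NormedAddCommGroup F1] [InnerProductSpace ℂ F1]
    [NormedAddCommGroup F2] [InnerProductSpace ℂ F2] [NormedAddCommGroup F3]
    [InnerProductSpace ℂ F3] [CompleteSpace V]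

/-- the form of `g` is below `l` times the norm on the span of `u` and `v` -/
def Pair (g : Forms V H F1 F2 F3) (l : ℝ) (u v : V) : Prop :=
  ∀ c d : ℂ, (c ≠ 0 ∨ d ≠ 0) → g.q (c • u + d • v) < l * ‖g.N (c • u + d • v)‖ ^ 2

/-- the second min-max value of the even sector, cut at zero -/
noncomputable def second (g : Forms V H F1 F2 F3) (S : Submodule ℂ V) : ℝ :=
  sInf ({l : ℝ | l < 0 ∧ ∃ u ∈ S, ∃ v ∈ S, Pair g l u v} ∪ {0})

/-- the first min-max value, cut at zero -/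
noncomputable def first (g : Forms V H F1 F2 F3) (S : Submodule ℂ V) : ℝ :=
  sInf ({l : ℝ | l < 0 ∧ ∃ u ∈ S, ‖g.N u‖ = 1 ∧ g.q u < l} ∪ {0})

variable {g : Forms V H F1 F2 F3} {S : Submodule ℂ V} {C : ℝ}

omit [CompleteSpace V] in
theorem q_ge (hC : 0 < C) (h5 : ∀ u, ‖u‖ ^ 2 ≤ C * (g.q u + C * ‖g.N u‖ ^ 2)) (u : V) :
    -C * ‖g.N u‖ ^ 2 ≤ g.q u := by
  have h := (sq_nonneg ‖u‖).trans (h5 u)
  have := nonneg_of_mul_nonneg_right h hC
  linarith

omit [CompleteSpace V] in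
theorem first_bdd (hC : 0 < C) (h5 : ∀ u, ‖u‖ ^ 2 ≤ C * (g.q u + C * ‖g.N u‖ ^ 2)) :
    BddBelow ({l : ℝ | l < 0 ∧ ∃ u ∈ S, ‖g.N u‖ = 1 ∧ g.q u < l} ∪ {0}) := by
  refine ⟨-C, ?_⟩
  rintro l (⟨-, u, -, hu, hl⟩ | hl)
  · have := q_ge hC h5 u
    rw [hu] at this
    linarith
  · rw [Set.mem_singleton_iff] at hl; linarith

omit [CompleteSpace V] in
theorem second_bdd (hC : 0 < C) (h5 : ∀ u, ‖u‖ ^ 2 ≤ C * (g.q u + C * ‖g.N u‖ ^ 2)) :
    BddBelow ({l : ℝ | l < 0 ∧ ∃ u ∈ S, ∃ v ∈ S, Pair g l u v} ∪ {0}) := by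
  refine ⟨-C, ?_⟩
  rintro l (⟨-, u, -, v, -, hl⟩ | hl)
  · have h1 := hl 1 0 (Or.inl one_ne_zero)
    simp only [one_smul, zero_smul, add_zero] at h1
    have h2 := q_ge hC h5 u
    by_contra hlt
    rw [not_le] at hlt
    have : (l + C) * ‖g.N u‖ ^ 2 ≤ 0 := mul_nonpos_of_nonpos_of_nonneg (by linarith) (by positivity)
    nlinarith
  · rw [Set.mem_singleton_iff] at hl; linarith

omit [CompleteSpace V] in
theorem first_le_zero (hC : 0 < C) (h5 : ∀ u, ‖u‖ ^ 2 ≤ C * (g.q u + C * ‖g.N u‖ ^ 2)) :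
    first g S ≤ 0 := csInf_le (first_bdd hC h5) (Or.inr rfl)

omit [CompleteSpace V] in
theorem second_le_zero (hC : 0 < C) (h5 : ∀ u, ‖u‖ ^ 2 ≤ C * (g.q u + C * ‖g.N u‖ ^ 2)) :
    second g S ≤ 0 := csInf_le (second_bdd hC h5) (Or.inr rfl)

omit [CompleteSpace V] in
/-- the first value is a lower bound -/
theorem first_mul_le (hC : 0 < C) (h5 : ∀ u, ‖u‖ ^ 2 ≤ C * (g.q u + C * ‖g.N u‖ ^ 2)) {u : V}
    (hu : u ∈ S) : first g S * ‖g.N u‖ ^ 2 ≤ g.q u := by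
  by_contra hlt
  rw [not_le] at hlt
  have hneg : g.q u < 0 := hlt.trans_le (mul_nonpos_of_nonpos_of_nonneg (first_le_zero hC h5)
    (by positivity))
  have hN : 0 < ‖g.N u‖ := by
    rcases (norm_nonneg (g.N u)).eq_or_lt with h | h
    · have := q_ge hC h5 u
      rw [← h] at this
      simp at this
      linarith
    · exact h
  set c : ℂ := ((‖g.N u‖⁻¹ : ℝ) : ℂ) with hc
  have hcn : ‖c‖ = ‖g.N u‖⁻¹ := by
    rw [hc, Complex.norm_real, Real.norm_eq_abs, abs_of_pos (by positivity)]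
  have h1 : ‖g.N (c • u)‖ = 1 := by
    rw [map_smul, norm_smul, hcn, inv_mul_cancel₀ hN.ne']
  have h2 : g.q (c • u) < first g S := by
    rw [g.q_smul, hcn, inv_pow, inv_mul_lt_iff₀ (by positivity)]
    linarith
  obtain ⟨l, hl1, hl2⟩ := exists_between h2
  have hl0 : l < 0 := hl2.trans_le (first_le_zero hC h5)
  have := csInf_le (first_bdd (S := S) hC h5) (Or.inl ⟨hl0, c • u, S.smul_mem _ hu, h1, hl1⟩)
  unfold first at hl2
  linarith

omit [CompleteSpace V] in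
theorem exists_near_first (hS : first g S < 0) (ε : ℝ) (hε : 0 < ε) :
    ∃ u ∈ S, ‖g.N u‖ = 1 ∧ g.q u < first g S + ε := by
  have hne : ({l : ℝ | l < 0 ∧ ∃ u ∈ S, ‖g.N u‖ = 1 ∧ g.q u < l} ∪ {0}).Nonempty :=
    ⟨0, Or.inr rfl⟩
  have h0 : first g S < min 0 (first g S + ε) := lt_min hS (by linarith)
  obtain ⟨l, hl, hl2⟩ := exists_lt_of_csInf_lt hne h0
  rcases hl with ⟨-, u, hu, hN, hq⟩ | hl
  · exact ⟨u, hu, hN, hq.trans (hl2.trans_le (min_le_right _ _))⟩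
  · rw [Set.mem_singleton_iff] at hl
    subst hl
    exact absurd hl2 (not_lt.2 (min_le_left _ _))

/-- the first eigenvalue of a sector -/
theorem exists_first (hS : IsClosed (S : Set V)) (hC : 0 < C) (hneg : first g S < 0)
    (h4 : ∀ u, ‖g.X u‖ ^ 2 ≤ ‖g.D u‖ ^ 2 + ‖g.N u‖ ^ 2 / 4)
    (h5 : ∀ u, ‖u‖ ^ 2 ≤ C * (g.q u + C * ‖g.N u‖ ^ 2)) (h6 : IsCompactOperator g.K) :
    ∃ u ∈ S, ‖g.N u‖ = 1 ∧ g.q u = first g S ∧
      ∀ v ∈ S, g.B v u = first g S * ⟪g.N v, g.N u⟫_ℂ :=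
  exists_min g S hS hneg hC (fun _ hu => first_mul_le hC h5 hu)
    (fun ε hε => exists_near_first hneg ε hε) h4 h5 h6

/-- the second eigenvalue of a sector -/
theorem exists_second (hS : IsClosed (S : Set V)) (hC : 0 < C) (hneg : second g S < 0)
    (h4 : ∀ u, ‖g.X u‖ ^ 2 ≤ ‖g.D u‖ ^ 2 + ‖g.N u‖ ^ 2 / 4)
    (h5 : ∀ u, ‖u‖ ^ 2 ≤ C * (g.q u + C * ‖g.N u‖ ^ 2)) (h6 : IsCompactOperator g.K) :
    ∃ u ∈ S, ‖g.N u‖ = 1 ∧ ∀ v ∈ S, g.B v u = second g S * ⟪g.N v, g.N u⟫_ℂ := by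
  -- pairs near the second value
  have hpair : ∀ ε : ℝ, 0 < ε → ∃ l < 0, l < second g S + ε ∧ ∃ u ∈ S, ∃ v ∈ S, Pair g l u v := by
    intro ε hε
    have hne : ({l : ℝ | l < 0 ∧ ∃ u ∈ S, ∃ v ∈ S, Pair g l u v} ∪ {0}).Nonempty :=
      ⟨0, Or.inr rfl⟩
    have h0 : second g S < min 0 (second g S + ε) := lt_min hneg (by linarith)
    obtain ⟨l, hl, hl2⟩ := exists_lt_of_csInf_lt hne h0
    rcases hl with ⟨hl0, u, hu, v, hv, hp⟩ | hl
    · exact ⟨l, hl0, hl2.trans_le (min_le_right _ _), u, hu, v, hv, hp⟩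
    · rw [Set.mem_singleton_iff] at hl
      subst hl
      exact absurd hl2 (not_lt.2 (min_le_left _ _))
  have hfirst : first g S < 0 := by
    obtain ⟨l, hl0, -, u, hu, v, hv, hp⟩ := hpair 1 one_pos
    have h1 := hp 1 0 (Or.inl one_ne_zero)
    simp only [one_smul, zero_smul, add_zero] at h1
    by_contra hge
    rw [not_lt] at hge
    have h2 := first_mul_le hC h5 hu
    have h3 : 0 ≤ first g S * ‖g.N u‖ ^ 2 := mul_nonneg hge (by positivity)
    have h4 : l * ‖g.N u‖ ^ 2 ≤ 0 := mul_nonpos_of_nonpos_of_nonneg hl0.le (by positivity)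
    linarith
  obtain ⟨w, hwS, hwN, hwq, hwB⟩ := exists_first hS hC hfirst h4 h5 h6
  set E := first g S with hE
  -- the orthogonal complement of the first eigenvector
  let S' : Submodule ℂ V :=
    { carrier := {u | u ∈ S ∧ ⟪g.N w, g.N u⟫_ℂ = 0}
      add_mem' := fun {a b} ha hb => ⟨S.add_mem ha.1 hb.1, by
        rw [map_add, inner_add_right, ha.2, hb.2, add_zero]⟩
      zero_mem' := ⟨S.zero_mem, by simp⟩
      smul_mem' := fun c a ha => ⟨S.smul_mem c ha.1, by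
        rw [map_smul, inner_smul_right, ha.2, mul_zero]⟩ }
  have hS' : IsClosed (S' : Set V) := by
    have h1 : (S' : Set V) = (S : Set V) ∩ {u | ⟪g.N w, g.N u⟫_ℂ = 0} := rfl
    rw [h1]
    exact hS.inter (isClosed_eq (by fun_prop) continuous_const)
  have hww : ⟪g.N w, g.N w⟫_ℂ = 1 := by
    rw [inner_self_eq_norm_sq_to_K, hwN]; norm_num
  have horth : ∀ u ∈ S', g.B w u = 0 := by
    intro u hu
    have h1 := hwB u hu.1
    have h2 : ⟪g.N u, g.N w⟫_ℂ = 0 := by rw [← inner_conj_symm, hu.2, map_zero]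
    rw [h2, mul_zero] at h1
    rw [← g.B_conj, h1, map_zero]
  set m := second g S with hm
  have h1 : ∀ u ∈ S', m * ‖g.N u‖ ^ 2 ≤ g.q u := by
    intro u hu
    by_contra hlt
    rw [not_le] at hlt
    have hneg' : g.q u < 0 := hlt.trans_le (mul_nonpos_of_nonpos_of_nonneg hneg.le (by positivity))
    have hN : 0 < ‖g.N u‖ ^ 2 := by
      rcases (sq_nonneg ‖g.N u‖).eq_or_lt with h | h
      · have := q_ge hC h5 u
        rw [← h] at this
        simp at this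
        linarith
      · exact h
    have h2 : g.q u / ‖g.N u‖ ^ 2 < m := by rw [div_lt_iff₀ hN]; exact hlt
    obtain ⟨l, hl1, hl2⟩ := exists_between h2
    rw [div_lt_iff₀ hN] at hl1
    have hEl : E < l := by
      have h3 := first_mul_le hC h5 hu.1
      have h4 : E * ‖g.N u‖ ^ 2 < l * ‖g.N u‖ ^ 2 := h3.trans_lt hl1
      exact lt_of_mul_lt_mul_right h4 hN.le
    have hp : Pair g l w u := by
      intro c d hcd
      have hB : g.B (c • w) (d • u) = 0 := by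
        rw [g.B_smul_left, g.B_smul_right, horth u hu, mul_zero, mul_zero]
      have hI : ⟪g.N (c • w), g.N (d • u)⟫_ℂ = 0 := by
        rw [map_smul, map_smul, inner_smul_left, inner_smul_right, hu.2, mul_zero, mul_zero]
      rw [g.q_add, hB, g.q_smul, g.q_smul, map_add, @norm_add_sq ℂ, hI, map_smul, map_smul,
        norm_smul, norm_smul, hwN, hwq]
      simp only [Complex.zero_re, mul_zero, add_zero, map_zero, mul_one, mul_pow]
      rcases hcd with hc | hd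
      · have hc' : 0 < ‖c‖ ^ 2 := by positivity
        have : ‖c‖ ^ 2 * E < ‖c‖ ^ 2 * l := mul_lt_mul_of_pos_left hEl hc'
        have : ‖d‖ ^ 2 * g.q u ≤ ‖d‖ ^ 2 * (l * ‖g.N u‖ ^ 2) :=
          mul_le_mul_of_nonneg_left hl1.le (by positivity)
        nlinarith
      · have hd' : 0 < ‖d‖ ^ 2 := by positivity
        have : ‖c‖ ^ 2 * E ≤ ‖c‖ ^ 2 * l := mul_le_mul_of_nonneg_left hEl.le (by positivity)
        have : ‖d‖ ^ 2 * g.q u < ‖d‖ ^ 2 * (l * ‖g.N u‖ ^ 2) := mul_lt_mul_of_pos_left hl1 hd'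
        nlinarith
    have := csInf_le (second_bdd (S := S) hC h5) (Or.inl ⟨hl2.trans hneg, w, hwS, u, hu.1, hp⟩)
    rw [hm] at hl2
    unfold second at hl2
    linarith
  have h2 : ∀ ε : ℝ, 0 < ε → ∃ u ∈ S', ‖g.N u‖ = 1 ∧ g.q u < m + ε := by
    intro ε hε
    obtain ⟨l, hl0, hl, u, hu, v, hv, hp⟩ := hpair ε hε
    -- a nonzero combination orthogonal to `w`
    obtain ⟨c, d, hcd, hz⟩ : ∃ c d : ℂ, (c ≠ 0 ∨ d ≠ 0) ∧ ⟪g.N w, g.N (c • u + d • v)⟫_ℂ = 0 := by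
      by_cases hu0 : ⟪g.N w, g.N u⟫_ℂ = 0
      · exact ⟨1, 0, Or.inl one_ne_zero, by simp [hu0]⟩
      · refine ⟨-⟪g.N w, g.N v⟫_ℂ, ⟪g.N w, g.N u⟫_ℂ, Or.inr hu0, ?_⟩
        rw [map_add, map_smul, map_smul, inner_add_right, inner_smul_right, inner_smul_right]
        ring
    set z := c • u + d • v with hzdef
    have hzS : z ∈ S' := ⟨S.add_mem (S.smul_mem _ hu) (S.smul_mem _ hv), hz⟩
    have hq := hp c d hcd
    rw [← hzdef] at hq
    have hneg' : g.q z < 0 := hq.trans_le (mul_nonpos_of_nonpos_of_nonneg hl0.le (by positivity))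
    have hN : 0 < ‖g.N z‖ := by
      rcases (norm_nonneg (g.N z)).eq_or_lt with h | h
      · have := q_ge hC h5 z
        rw [← h] at this
        simp at this
        linarith
      · exact h
    set a : ℂ := ((‖g.N z‖⁻¹ : ℝ) : ℂ) with ha
    have han : ‖a‖ = ‖g.N z‖⁻¹ := by
      rw [ha, Complex.norm_real, Real.norm_eq_abs, abs_of_pos (by positivity)]
    refine ⟨a • z, S'.smul_mem _ hzS, ?_, ?_⟩
    · rw [map_smul, norm_smul, han, inv_mul_cancel₀ hN.ne']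
    · rw [g.q_smul, han, inv_pow, inv_mul_lt_iff₀ (by positivity)]
      have : l * ‖g.N z‖ ^ 2 < (m + ε) * ‖g.N z‖ ^ 2 := mul_lt_mul_of_pos_right hl (by positivity)
      nlinarith
  obtain ⟨u, huS, huN, -, huB⟩ := exists_min g S' hS' hneg hC h1 h2 h4 h5 h6
  refine ⟨u, huS.1, huN, fun v hv => ?_⟩
  set s := ⟪g.N w, g.N v⟫_ℂ with hs
  have hv' : v - s • w ∈ S' := ⟨S.sub_mem hv (S.smul_mem _ hwS), by
    rw [map_sub, map_smul, inner_sub_right, inner_smul_right, hww, ← hs]; ring⟩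
  have h7 := huB _ hv'
  have h8 : v = (v - s • w) + s • w := by abel
  have h9 : g.B v u = g.B (v - s • w) u + g.B (s • w) u := by
    rw [← g.B_add_left, ← h8]
  have h10 : ⟪g.N v, g.N u⟫_ℂ = ⟪g.N (v - s • w), g.N u⟫_ℂ + ⟪g.N (s • w), g.N u⟫_ℂ := by
    rw [← inner_add_left, ← map_add, ← h8]
  rw [h9, h10, h7, g.B_smul_left, horth u huS, map_smul, inner_smul_left, huS.2]
  ring

end

end Pool.Agent.U469.DE.Abs
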