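import Pool.Agent.U469.DE.Cross

set_option autoImplicit false

open Filter Topology Complex
open scoped ComplexConjugate InnerProductSpace

namespace Pool.Agent.U469.DE.Abs

section
variable {V H F1 F2 F3 : Type} [NormedAddCommGroup V] [InnerProductSpace ℂ V]
    [NormedAddCommGroup H] [InnerProductSpace ℂ H] [NormedAddCommGroup F1] [InnerProductSpace ℂ F1]
    [NormedAddCommGroup F2] [InnerProductSpace ℂ F2] [NormedAddCommGroup F3]
    [InnerProductSpace ℂ F3]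

theorem first_le_first {g g' : Forms V H F1 F2 F3} {S : Submodule ℂ V} {C a : ℝ} (hC : 0 < C)
    (ha : 0 ≤ a) (hN : g'.N = g.N) (h5 : ∀ u, ‖u‖ ^ 2 ≤ C * (g.q u + C * ‖g.N u‖ ^ 2))
    (h5' : ∀ u, ‖u‖ ^ 2 ≤ C * (g'.q u + C * ‖g'.N u‖ ^ 2))
    (hq : ∀ u, g'.q u ≤ g.q u + a * ‖u‖ ^ 2) : first g' S ≤ first g S + a * C ^ 2 := by
  rw [← sub_le_iff_le_add]
  refine le_csInf ⟨0, Or.inr rfl⟩ ?_
  have h0 : 0 ≤ a * C ^ 2 := by positivity
  rintro l (⟨hl0, u, hu, hn, hl⟩ | hl)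
  · have h1 : ‖u‖ ^ 2 ≤ C ^ 2 := by
      refine (h5 u).trans ?_
      rw [hn]
      nlinarith
    have h2 : g'.q u < l + a * C ^ 2 := by
      have := hq u
      have h3 : a * ‖u‖ ^ 2 ≤ a * C ^ 2 := mul_le_mul_of_nonneg_left h1 ha
      linarith
    rw [sub_le_iff_le_add]
    by_cases hneg : l + a * C ^ 2 < 0
    · exact csInf_le (first_bdd hC h5') (Or.inl ⟨hneg, u, hu, by rw [hN]; exact hn, h2⟩)
    · exact (first_le_zero hC h5').trans (not_lt.1 hneg)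
  · rw [Set.mem_singleton_iff] at hl
    subst hl
    have := first_le_zero (S := S) hC h5'
    linarith

theorem second_le_second {g g' : Forms V H F1 F2 F3} {S : Submodule ℂ V} {C a : ℝ} (hC : 0 < C)
    (ha : 0 ≤ a) (hN : g'.N = g.N) (h5 : ∀ u, ‖u‖ ^ 2 ≤ C * (g.q u + C * ‖g.N u‖ ^ 2))
    (h5' : ∀ u, ‖u‖ ^ 2 ≤ C * (g'.q u + C * ‖g'.N u‖ ^ 2))
    (hq : ∀ u, g'.q u ≤ g.q u + a * ‖u‖ ^ 2) : second g' S ≤ second g S + a * C ^ 2 := by
  rw [← sub_le_iff_le_add]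
  refine le_csInf ⟨0, Or.inr rfl⟩ ?_
  have h0 : 0 ≤ a * C ^ 2 := by positivity
  rintro l (⟨hl0, u, hu, v, hv, hl⟩ | hl)
  · have h2 : Pair g' (l + a * C ^ 2) u v := by
      intro c d hcd
      have h3 := hl c d hcd
      set w := c • u + d • v
      have hneg : g.q w ≤ 0 :=
        h3.le.trans (mul_nonpos_of_nonpos_of_nonneg hl0.le (by positivity))
      have h1 : ‖w‖ ^ 2 ≤ C ^ 2 * ‖g.N w‖ ^ 2 := by
        refine (h5 w).trans ?_
        nlinarith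
      have h4 : a * ‖w‖ ^ 2 ≤ a * (C ^ 2 * ‖g.N w‖ ^ 2) := mul_le_mul_of_nonneg_left h1 ha
      have := hq w
      rw [hN]
      nlinarith
    rw [sub_le_iff_le_add]
    by_cases hneg : l + a * C ^ 2 < 0
    · exact csInf_le (second_bdd hC h5') (Or.inl ⟨hneg, u, hu, v, hv, h2⟩)
    · exact (second_le_zero hC h5').trans (not_lt.1 hneg)
  · rw [Set.mem_singleton_iff] at hl
    subst hl
    have := second_le_zero (S := S) hC h5'
    linarith

theorem first_neg {g : Forms V H F1 F2 F3} {S : Submodule ℂ V} {C : ℝ} (hC : 0 < C)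
    (h5 : ∀ u, ‖u‖ ^ 2 ≤ C * (g.q u + C * ‖g.N u‖ ^ 2)) {u : V} (hu : u ∈ S) (hq : g.q u < 0) :
    first g S < 0 := by
  by_contra hge
  rw [not_lt] at hge
  have h2 := first_mul_le hC h5 hu
  have h3 : 0 ≤ first g S * ‖g.N u‖ ^ 2 := mul_nonneg hge (by positivity)
  linarith

theorem le_first {g : Forms V H F1 F2 F3} {S : Submodule ℂ V} {l : ℝ} (hl : l ≤ 0)
    (h : ∀ u ∈ S, l * ‖g.N u‖ ^ 2 ≤ g.q u) : l ≤ first g S := by
  refine le_csInf ⟨0, Or.inr rfl⟩ ?_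
  rintro k (⟨-, u, hu, hn, hk⟩ | hk)
  · have := h u hu
    rw [hn] at this
    linarith
  · rw [Set.mem_singleton_iff] at hk; linarith

theorem second_zero {g : Forms V H F1 F2 F3} {S : Submodule ℂ V} {C : ℝ} (hC : 0 < C)
    (h5 : ∀ u, ‖u‖ ^ 2 ≤ C * (g.q u + C * ‖g.N u‖ ^ 2)) (L : V →L[ℂ] ℂ)
    (h : ∀ u ∈ S, L u = 0 → 0 ≤ g.q u) : second g S = 0 := by
  apply le_antisymm (second_le_zero hC h5)
  refine le_csInf ⟨0, Or.inr rfl⟩ ?_
  rintro k (⟨hk0, u, hu, v, hv, hp⟩ | hk)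
  · exfalso
    obtain ⟨c, d, hcd, hz⟩ : ∃ c d : ℂ, (c ≠ 0 ∨ d ≠ 0) ∧ L (c • u + d • v) = 0 := by
      by_cases hu0 : L u = 0
      · exact ⟨1, 0, Or.inl one_ne_zero, by simp [hu0]⟩
      · refine ⟨-L v, L u, Or.inr hu0, ?_⟩
        rw [map_add, map_smul, map_smul, smul_eq_mul, smul_eq_mul]
        ring
    have h1 := h _ (S.add_mem (S.smul_mem c hu) (S.smul_mem d hv)) hz
    have h2 := hp c d hcd
    have h3 : k * ‖g.N (c • u + d • v)‖ ^ 2 ≤ 0 :=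
      mul_nonpos_of_nonpos_of_nonneg hk0.le (by positivity)
    linarith
  · rw [Set.mem_singleton_iff] at hk; linarith

variable [CompleteSpace V]

/-- the crossing of the second value of the sector `Se` with the first value of the sector `So` -/
theorem crossing (f : ℝ → Forms V H F1 F2 F3) (Se So : Submodule ℂ V)
    (hSe : IsClosed (Se : Set V)) (hSo : IsClosed (So : Set V)) {T C c : ℝ} (hT : 0 < T)
    (hC : 0 < C) (hc : 0 ≤ c) (hN : ∀ t, (f t).N = (f 0).N)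
    (h4 : ∀ t, ∀ u, ‖(f t).X u‖ ^ 2 ≤ ‖(f t).D u‖ ^ 2 + ‖(f t).N u‖ ^ 2 / 4)
    (h5 : ∀ t, ∀ u, ‖u‖ ^ 2 ≤ C * ((f t).q u + C * ‖(f t).N u‖ ^ 2))
    (h6 : ∀ t ∈ Set.Icc 0 T, IsCompactOperator (f t).K)
    (hcont : ∀ s ∈ Set.Icc 0 T, ∀ t ∈ Set.Icc 0 T, ∀ u,
      |(f s).q u - (f t).q u| ≤ c * √|s - t| * ‖u‖ ^ 2)
    (hodd : ∀ t ∈ Set.Icc 0 T, ∃ u ∈ So, (f t).q u < 0)
    (L : V →L[ℂ] ℂ) (h0 : ∀ u ∈ Se, L u = 0 → 0 ≤ (f 0).q u)
    {l l' : ℝ} (hl : l < l') (hl' : l' < 0) (hlow : ∀ u ∈ So, l' * ‖(f T).N u‖ ^ 2 ≤ (f T).q u)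
    (hup : ∃ u ∈ Se, ∃ v ∈ Se, Pair (f T) l u v) :
    ∃ t ∈ Set.Ioo 0 T, ∃ m : ℝ, m < 0 ∧
      (∃ u ∈ So, ‖(f t).N u‖ = 1 ∧ ∀ v ∈ So, (f t).B v u = m * ⟪(f t).N v, (f t).N u⟫_ℂ) ∧
      (∃ u ∈ Se, ‖(f t).N u‖ = 1 ∧ ∀ v ∈ Se, (f t).B v u = m * ⟪(f t).N v, (f t).N u⟫_ℂ) := by
  have hF : ∀ s ∈ Set.Icc 0 T, ∀ t ∈ Set.Icc 0 T,
      |first (f s) So - first (f t) So| ≤ c * √|s - t| * C ^ 2 := by
    intro s hs t ht
    have ha : 0 ≤ c * √|s - t| := by positivity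
    rw [abs_le]
    constructor
    · have := first_le_first (S := So) hC ha ((hN t).trans (hN s).symm) (h5 s) (h5 t) (fun u => by
        have := (abs_le.1 (hcont s hs t ht u)).1
        linarith)
      linarith
    · have := first_le_first (S := So) hC ha ((hN s).trans (hN t).symm) (h5 t) (h5 s) (fun u => by
        have := (abs_le.1 (hcont s hs t ht u)).2
        linarith)
      linarith
  have hG : ∀ s ∈ Set.Icc 0 T, ∀ t ∈ Set.Icc 0 T,
      |second (f s) Se - second (f t) Se| ≤ c * √|s - t| * C ^ 2 := by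
    intro s hs t ht
    have ha : 0 ≤ c * √|s - t| := by positivity
    rw [abs_le]
    constructor
    · have := second_le_second (S := Se) hC ha ((hN t).trans (hN s).symm) (h5 s) (h5 t) (fun u => by
        have := (abs_le.1 (hcont s hs t ht u)).1
        linarith)
      linarith
    · have := second_le_second (S := Se) hC ha ((hN s).trans (hN t).symm) (h5 t) (h5 s) (fun u => by
        have := (abs_le.1 (hcont s hs t ht u)).2
        linarith)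
      linarith
  have key : ∀ F : ℝ → ℝ, (∀ s ∈ Set.Icc 0 T, ∀ t ∈ Set.Icc 0 T,
      |F s - F t| ≤ c * √|s - t| * C ^ 2) → ContinuousOn F (Set.Icc 0 T) := by
    intro F hF t ht
    rw [ContinuousWithinAt, tendsto_iff_norm_sub_tendsto_zero]
    have h1 : Tendsto (fun s => c * √|s - t| * C ^ 2) (𝓝[Set.Icc 0 T] t) (𝓝 0) := by
      have h2 : Continuous fun s : ℝ => c * √|s - t| * C ^ 2 := by fun_prop
      have h3 := (h2.tendsto t).mono_left (nhdsWithin_le_nhds (s := Set.Icc 0 T))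
      simpa using h3
    refine squeeze_zero' (Eventually.of_forall fun s => norm_nonneg _) ?_ h1
    filter_upwards [self_mem_nhdsWithin] with s hs
    exact hF s hs t ht
  have hcont1 := (key _ hG).sub (key _ hF)
  have hmem0 : (0 : ℝ) ∈ Set.Icc 0 T := ⟨le_rfl, hT.le⟩
  have hmemT : T ∈ Set.Icc 0 T := ⟨hT.le, le_rfl⟩
  have hneg : ∀ t ∈ Set.Icc 0 T, first (f t) So < 0 := fun t ht => by
    obtain ⟨u, hu, hq⟩ := hodd t ht
    exact first_neg hC (h5 t) hu hq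
  have hat0 : 0 < second (f 0) Se - first (f 0) So := by
    rw [second_zero hC (h5 0) L h0]
    linarith [hneg 0 hmem0]
  have hatT : second (f T) Se - first (f T) So < 0 := by
    have h1 := le_first hl'.le hlow
    obtain ⟨u, hu, v, hv, hp⟩ := hup
    have h2 : second (f T) Se ≤ l :=
      csInf_le (second_bdd hC (h5 T)) (Or.inl ⟨hl.trans hl', u, hu, v, hv, hp⟩)
    linarith
  obtain ⟨t, ht, h⟩ := intermediate_value_Icc' hT.le hcont1 (show (0 : ℝ) ∈ Set.Icc _ _ from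
    ⟨hatT.le, hat0.le⟩)
  have ht0 : t ≠ 0 := fun h' => by rw [h'] at h; exact hat0.ne' h
  have htT : t ≠ T := fun h' => by rw [h'] at h; exact hatT.ne h
  have h' : second (f t) Se - first (f t) So = 0 := h
  have hI : t ∈ Set.Ioo 0 T := ⟨lt_of_le_of_ne ht.1 (Ne.symm ht0), lt_of_le_of_ne ht.2 htT⟩
  have heq : second (f t) Se = first (f t) So := sub_eq_zero.1 h'
  refine ⟨t, hI, first (f t) So, hneg t ht, ?_, ?_⟩
  · obtain ⟨u, hu, hn, -, hB⟩ := exists_first hSo hC (hneg t ht) (h4 t) (h5 t) (h6 t ht)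
    exact ⟨u, hu, hn, hB⟩
  · obtain ⟨u, hu, hn, hB⟩ := exists_second hSe hC (heq ▸ hneg t ht) (h4 t) (h5 t) (h6 t ht)
    rw [heq] at hB
    exact ⟨u, hu, hn, hB⟩

end

end Pool.Agent.U469.DE.Abs
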