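import Pool.Agent.U469.DE.Space4
import Pool.Agent.U473.DE.Odd
import Pool.Agent.U492.DE.Even
import Pool.Agent.U324.DE.TestEven
import Pool.Agent.U688.DE.Cpt
import Pool.Agent.U411.DE.GeoInt

set_option autoImplicit false

open MeasureTheory Filter Topology Complex
open scoped ComplexConjugate InnerProductSpace

namespace Pool.Agent.U469.DE

noncomputable section

/-! ### The form in terms of the curve -/

theorem line_form (hG : JobGeoInt) {t : ℝ} (ht : t ∈ Set.Icc 0 top) (φ ψ : Core) :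
    (∫ x : ℝ, conj (hfun t φ x) * hfun t ψ x) +
      ((∫ y : ℝ, conj (wfun 1 t φ y) * wfun 1 t ψ y) +
        ∫ y : ℝ, conj (wfun (-1) t φ y) * wfun (-1) t ψ y) =
    ∫ s : ℝ, conj ((φ : ℝ × ℝ → ℂ) (gam t s)) * (ψ : ℝ × ℝ → ℂ) (gam t s) := by
  have hc : Continuous fun p : ℝ × ℝ => conj ((φ : ℝ × ℝ → ℂ) p) * (ψ : ℝ × ℝ → ℂ) p :=
    (Complex.continuous_conj.comp (core_cont φ.2)).mul (core_cont ψ.2)
  have hs : HasCompactSupport fun p : ℝ × ℝ => conj ((φ : ℝ × ℝ → ℂ) p) * (ψ : ℝ × ℝ → ℂ) p :=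
    ψ.2.2.mul_left
  rw [hG t ht _ hc hs]
  congr 1
  have key : ∀ σ : ℝ, (∫ y : ℝ, conj (wfun σ t φ y) * wfun σ t ψ y) =
      ∫ y in Set.Ioo (-ste) t, conj ((φ : ℝ × ℝ → ℂ) (σ * pos y, y)) *
        (ψ : ℝ × ℝ → ℂ) (σ * pos y, y) := by
    intro σ
    rw [← integral_indicator measurableSet_Ioo]
    congr 1
    funext y
    unfold wfun
    by_cases hy : y ∈ Set.Ioo (-ste) t
    · rw [Set.indicator_of_mem hy, Set.indicator_of_mem hy, Set.indicator_of_mem hy]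
    · rw [Set.indicator_of_notMem hy, Set.indicator_of_notMem hy, Set.indicator_of_notMem hy,
        mul_zero]
  have hi : ∀ σ : ℝ, IntegrableOn (fun y => conj ((φ : ℝ × ℝ → ℂ) (σ * pos y, y)) *
        (ψ : ℝ × ℝ → ℂ) (σ * pos y, y)) (Set.Ioo (-ste) t) := by
    intro σ
    obtain ⟨M, hM0, hM⟩ := core_bdd φ.2
    obtain ⟨M', hM0', hM'⟩ := core_bdd ψ.2
    have hm : Measurable fun y => conj ((φ : ℝ × ℝ → ℂ) (σ * pos y, y)) *
        (ψ : ℝ × ℝ → ℂ) (σ * pos y, y) :=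
      hc.measurable.comp ((pos_meas.const_mul σ).prodMk measurable_id)
    refine Measure.integrableOn_of_bounded (M := M * M') (by simp) hm.aestronglyMeasurable
      (Eventually.of_forall fun y => ?_)
    rw [norm_mul, RCLike.norm_conj]
    exact mul_le_mul (hM _) (hM' _) (norm_nonneg _) hM0
  rw [key 1, key (-1), ← integral_add (hi 1) (hi (-1))]
  simp only [one_mul, neg_mul]

/-- the sesquilinear form of the gradient -/
def grF (φ ψ : ℝ × ℝ → ℂ) : ℂ :=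
  (∫ p : ℝ × ℝ, conj (dX φ p) * dX ψ p) + ∫ p : ℝ × ℝ, conj (dY φ p) * dY ψ p

theorem leaky_e (hG : JobGeoInt) {t : ℝ} (ht : t ∈ Set.Icc 0 top) (φ ψ : Core) :
    grF φ ψ - ∫ s : ℝ, conj ((φ : ℝ × ℝ → ℂ) (gam t s)) * (ψ : ℝ × ℝ → ℂ) (gam t s) =
      (fam t).B (e φ) (e ψ) - ⟪Nop (e φ), Nop (e ψ)⟫_ℂ / 4 := by
  rw [← line_form hG ht, B_e, inner_N_e]
  unfold grF
  ring

/-- a vector of the Sobolev space which solves the equation gives an eigenfunction -/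
theorem eig (hG : JobGeoInt) {t m : ℝ} (ht : t ∈ Set.Icc 0 top) {u : V}
    (hu : ∀ φ : Core, (fam t).B (e φ) u = m * ⟪Nop (e φ), Nop u⟫_ℂ) :
    ∃ ψ : ℕ → ℝ × ℝ → ℂ, (∀ n, ψ n ∈ Core) ∧
      Tendsto (fun n => ∫ p : ℝ × ℝ, ‖ψ n p - Nop u p‖ ^ 2) atTop (𝓝 0) ∧
      Tendsto (fun p : ℕ × ℕ => (grF (ψ p.1 - ψ p.2) (ψ p.1 - ψ p.2)).re) atTop (𝓝 0) ∧
      ∀ φ ∈ Core, Tendsto (fun n => grF φ (ψ n) - ∫ s : ℝ, conj (φ (gam t s)) * ψ n (gam t s)) atTop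
        (𝓝 ((m - 1 / 4 : ℝ) * ∫ p : ℝ × ℝ, conj (φ p) * Nop u p)) := by
  obtain ⟨w, hw, hwu⟩ := mem_closure_iff_seq_limit.1 (e_dense u)
  choose ψ hψ using hw
  have hlim : Tendsto (fun n => e (ψ n)) atTop (𝓝 u) := by
    simpa only [hψ] using hwu
  refine ⟨fun n => ψ n, fun n => (ψ n).2, ?_, ?_, ?_⟩
  · have h1 : Tendsto (fun n => ‖Nop (e (ψ n)) - Nop u‖ ^ 2) atTop (𝓝 0) := by
      have h2 := (Nop.continuous.tendsto u).comp hlim
      have h3 := ((h2.sub_const (Nop u)).norm).pow 2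
      simpa using h3
    refine h1.congr fun n => ?_
    rw [Nop_e]
    have h4 : (core_memLp (ψ n).2).toLp - Nop u =
        ((core_memLp (ψ n).2).sub (Lp.memLp (Nop u))).toLp := by
      rw [MemLp.toLp_sub (core_memLp (ψ n).2) (Lp.memLp (Nop u)), Lp.toLp_coeFn]
    rw [h4, norm_sq_toLp]
    rfl
  · have h1 : Tendsto (fun p : ℕ × ℕ => ‖Dop (e (ψ p.1)) - Dop (e (ψ p.2))‖ ^ 2) atTop (𝓝 0) := by
      have ha : Tendsto (fun p : ℕ × ℕ => Dop (e (ψ p.1)) - Dop (e (ψ p.2))) atTop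
          (𝓝 (Dop u - Dop u)) := by
        rw [← prod_atTop_atTop_eq]
        exact (((Dop.continuous.tendsto u).comp hlim).comp tendsto_fst).sub
          (((Dop.continuous.tendsto u).comp hlim).comp tendsto_snd)
      have hb := (ha.norm).pow 2
      simpa using hb
    refine h1.congr fun p => ?_
    rw [← map_sub, ← map_sub, norm_Dop_e]
    have h5 : ∀ f : ℝ × ℝ → ℂ, (∫ p, conj (f p) * f p) = ((∫ p, ‖f p‖ ^ 2 : ℝ) : ℂ) := by
      intro f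
      rw [← integral_complex_ofReal]
      refine integral_congr_ae (Eventually.of_forall fun x => ?_)
      simp only
      rw [← Complex.normSq_eq_conj_mul_self, Complex.normSq_eq_norm_sq]
    unfold grF
    rw [h5, h5, ← Complex.ofReal_add, Complex.ofReal_re]
    rfl
  · intro φ hφ
    have h1 : Tendsto (fun n => (fam t).B (e ⟨φ, hφ⟩) (e (ψ n)) -
        ⟪Nop (e ⟨φ, hφ⟩), Nop (e (ψ n))⟫_ℂ / 4) atTop
        (𝓝 ((fam t).B (e ⟨φ, hφ⟩) u - ⟪Nop (e ⟨φ, hφ⟩), Nop u⟫_ℂ / 4)) := by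
      have h2 : Continuous fun v : V => (fam t).B (e ⟨φ, hφ⟩) v - ⟪Nop (e ⟨φ, hφ⟩), Nop v⟫_ℂ / 4 :=
        (B_cont_right t _).sub (by fun_prop)
      exact (h2.tendsto u).comp hlim
    have h3 : ⟪Nop (e ⟨φ, hφ⟩), Nop u⟫_ℂ = ∫ p : ℝ × ℝ, conj (φ p) * Nop u p := by
      rw [Nop_e]
      have h4 : Nop u = (Lp.memLp (Nop u)).toLp := (Lp.toLp_coeFn _ _).symm
      conv_lhs => rw [h4]
      rw [inner_toLp]
    have h5 : (fam t).B (e ⟨φ, hφ⟩) u - ⟪Nop (e ⟨φ, hφ⟩), Nop u⟫_ℂ / 4 =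
        ((m - 1 / 4 : ℝ) : ℂ) * ∫ p : ℝ × ℝ, conj (φ p) * Nop u p := by
      rw [hu, h3]
      push_cast
      ring
    rw [h5] at h1
    refine h1.congr fun n => ?_
    exact (leaky_e hG ht ⟨φ, hφ⟩ (ψ n)).symm

/-- everything but the properties of the curve -/
theorem main (hC : JobCpt) (hO : JobOdd) (hE : JobEven) (hTO : JobTestOdd) (hTE : JobTestEven)
    (hG : JobGeoInt) : ∃ t ∈ Set.Ioo 0 top, ∃ m : ℝ, m < 0 ∧ ∃ u v : H2,
      (∀ a b : ℂ, (fun p => a * u p + b * v p) =ᵐ[volume] (fun _ => 0) → a = 0 ∧ b = 0) ∧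
      ∀ w : H2, w = u ∨ w = v → ∃ ψ : ℕ → ℝ × ℝ → ℂ, (∀ n, ψ n ∈ Core) ∧
      Tendsto (fun n => ∫ p : ℝ × ℝ, ‖ψ n p - w p‖ ^ 2) atTop (𝓝 0) ∧
      Tendsto (fun p : ℕ × ℕ => (grF (ψ p.1 - ψ p.2) (ψ p.1 - ψ p.2)).re) atTop (𝓝 0) ∧
      ∀ φ ∈ Core, Tendsto (fun n => grF φ (ψ n) - ∫ s : ℝ, conj (φ (gam t s)) * ψ n (gam t s)) atTop
        (𝓝 ((m - 1 / 4 : ℝ) * ∫ p : ℝ × ℝ, conj (φ p) * w p)) := by
  obtain ⟨t, ht, m, hm, ⟨v, hv, hnv, hBv⟩, ⟨u, hu, hnu, hBu⟩⟩ := crossing hC hO hE hTO hTE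
  refine ⟨t, ht, m, hm, Nop u, Nop v, ?_, ?_⟩
  · intro a b hab
    have h1 : a • Nop u + b • Nop v = 0 := by
      rw [Lp.eq_zero_iff_ae_eq_zero]
      filter_upwards [Lp.coeFn_add (a • Nop u) (b • Nop v), Lp.coeFn_smul a (Nop u),
        Lp.coeFn_smul b (Nop v), hab] with p h1 h2 h3 h4
      rw [h1, Pi.add_apply, h2, h3]
      exact h4
    have h0 := orth_sectors u hu v hv
    have h0' : ⟪Nop v, Nop u⟫_ℂ = 0 := by rw [← inner_conj_symm, h0, map_zero]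
    have huu : ⟪Nop u, Nop u⟫_ℂ = 1 := by rw [inner_self_eq_norm_sq_to_K, hnu]; simp
    have hvv : ⟪Nop v, Nop v⟫_ℂ = 1 := by rw [inner_self_eq_norm_sq_to_K, hnv]; simp
    constructor
    · have h2 : ⟪Nop u, a • Nop u + b • Nop v⟫_ℂ = 0 := by rw [h1, inner_zero_right]
      rw [inner_add_right, inner_smul_right, inner_smul_right, huu, h0] at h2
      simpa using h2
    · have h2 : ⟪Nop v, a • Nop u + b • Nop v⟫_ℂ = 0 := by rw [h1, inner_zero_right]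
      rw [inner_add_right, inner_smul_right, inner_smul_right, hvv, h0'] at h2
      simpa using h2
  · rintro w (rfl | rfl)
    · exact eig hG ⟨ht.1.le, ht.2.le⟩ (EL_even t hu hBu)
    · exact eig hG ⟨ht.1.le, ht.2.le⟩ (EL_odd t hv hBv)

end

end Pool.Agent.U469.DE
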