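import Pool.Agent.U469.DE.Final

set_option autoImplicit false

open MeasureTheory Filter Topology Complex
open scoped ComplexConjugate InnerProductSpace

namespace Pool.Agent.U469.DE

noncomputable section

/-! ### Scaling -/

/-- the dilated function -/
def dil (a : ℝ) (φ : ℝ × ℝ → ℂ) (p : ℝ × ℝ) : ℂ := φ (a • p)

theorem dil_core {φ : ℝ × ℝ → ℂ} (h : φ ∈ Core) {a : ℝ} (ha : a ≠ 0) : dil a φ ∈ Core := by
  refine ⟨h.1.comp (contDiff_const_smul a), ?_⟩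
  exact h.2.comp_homeomorph (Homeomorph.smulOfNeZero a ha)

theorem dil_dil {a : ℝ} (ha : a ≠ 0) (φ : ℝ × ℝ → ℂ) : dil a (dil a⁻¹ φ) = φ := by
  funext p
  unfold dil
  rw [smul_smul, inv_mul_cancel₀ ha, one_smul]

theorem fderiv_dil {φ : ℝ × ℝ → ℂ} (h : φ ∈ Core) (a : ℝ) (p v : ℝ × ℝ) :
    fderiv ℝ (dil a φ) p v = a * fderiv ℝ φ (a • p) v := by
  have h1 : HasFDerivAt (fun q : ℝ × ℝ => a • q) (a • ContinuousLinearMap.id ℝ (ℝ × ℝ)) p :=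
    (hasFDerivAt_id p).const_smul a
  have h2 : HasFDerivAt φ (fderiv ℝ φ (a • p)) (a • p) := (core_diff h _).hasFDerivAt
  have h3 := h2.comp p h1
  have h4 : dil a φ = φ ∘ fun q : ℝ × ℝ => a • q := rfl
  rw [h4, h3.fderiv]
  show fderiv ℝ φ (a • p) (a • v) = _
  rw [map_smul]
  exact Complex.real_smul

theorem int_dil (F : ℝ × ℝ → ℂ) (a : ℝ) : ∫ p : ℝ × ℝ, F (a • p) = ((a ^ 2)⁻¹ : ℝ) * ∫ p, F p := by
  rw [Measure.integral_comp_smul]
  have : Module.finrank ℝ (ℝ × ℝ) = 2 := by simp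
  rw [this, abs_of_nonneg (by positivity)]
  exact Complex.real_smul

theorem int_dil' (F : ℝ × ℝ → ℝ) (a : ℝ) : ∫ p : ℝ × ℝ, F (a • p) = (a ^ 2)⁻¹ * ∫ p, F p := by
  rw [Measure.integral_comp_smul]
  have : Module.finrank ℝ (ℝ × ℝ) = 2 := by simp
  rw [this, abs_of_nonneg (by positivity)]
  rfl

theorem grF_dil {φ ψ : ℝ × ℝ → ℂ} (h : φ ∈ Core) (h' : ψ ∈ Core) {a : ℝ} (ha : a ≠ 0) :
    grF (dil a φ) (dil a ψ) = grF φ ψ := by
  have key : ∀ v : ℝ × ℝ, (∫ p : ℝ × ℝ, conj (fderiv ℝ (dil a φ) p v) * fderiv ℝ (dil a ψ) p v) =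
      ∫ p : ℝ × ℝ, conj (fderiv ℝ φ p v) * fderiv ℝ ψ p v := by
    intro v
    have h1 : ∀ p : ℝ × ℝ, conj (fderiv ℝ (dil a φ) p v) * fderiv ℝ (dil a ψ) p v =
        (a : ℂ) ^ 2 * (conj (fderiv ℝ φ (a • p) v) * fderiv ℝ ψ (a • p) v) := by
      intro p
      rw [fderiv_dil h, fderiv_dil h', map_mul, Complex.conj_ofReal]
      ring
    simp_rw [h1]
    rw [integral_const_mul, int_dil (fun p => conj (fderiv ℝ φ p v) * fderiv ℝ ψ p v) a, ← mul_assoc]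
    have h2 : (a : ℂ) ^ 2 * (((a ^ 2)⁻¹ : ℝ) : ℂ) = 1 := by
      push_cast
      have : (a : ℂ) ≠ 0 := by exact_mod_cast ha
      field_simp
    rw [h2, one_mul]
  unfold grF dX dY
  rw [key, key]

/-- the dilated curve -/
def dilCurve (a : ℝ) (γ : ℝ → ℝ × ℝ) (s : ℝ) : ℝ × ℝ := a⁻¹ • γ (a * s)

theorem line_dil (γ : ℝ → ℝ × ℝ) (φ ψ : ℝ × ℝ → ℂ) {a : ℝ} (ha : 0 < a) :
    (a : ℂ) * ∫ s : ℝ, conj (dil a φ (dilCurve a γ s)) * dil a ψ (dilCurve a γ s) =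
      ∫ s : ℝ, conj (φ (γ s)) * ψ (γ s) := by
  have h1 : ∀ s : ℝ, conj (dil a φ (dilCurve a γ s)) * dil a ψ (dilCurve a γ s) =
      (fun r => conj (φ (γ r)) * ψ (γ r)) (a * s) := by
    intro s
    unfold dil dilCurve
    rw [smul_smul, mul_inv_cancel₀ ha.ne', one_smul]
  simp_rw [h1]
  rw [Measure.integral_comp_mul_left (fun r => conj (φ (γ r)) * ψ (γ r)) a,
    abs_of_pos (inv_pos.2 ha)]
  have h2 : ∀ z : ℂ, (a : ℂ) * ((a⁻¹ : ℝ) • z) = z := by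
    intro z
    rw [Complex.real_smul, ← mul_assoc]
    have : (a : ℂ) ≠ 0 := by exact_mod_cast ha.ne'
    push_cast
    rw [mul_inv_cancel₀ this, one_mul]
  exact h2 _

theorem memLp_dil {u : ℝ × ℝ → ℂ} (hu : MemLp u 2 (volume : Measure (ℝ × ℝ))) {a : ℝ} (ha : a ≠ 0) :
    MemLp (dil a u) 2 (volume : Measure (ℝ × ℝ)) := by
  have h1 : Measure.map (fun p : ℝ × ℝ => a • p) volume =
      ENNReal.ofReal |(a ^ Module.finrank ℝ (ℝ × ℝ))⁻¹| • (volume : Measure (ℝ × ℝ)) :=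
    Measure.map_addHaar_smul volume ha
  have h2 : MemLp u 2 (Measure.map (fun p : ℝ × ℝ => a • p) volume) := by
    rw [h1]
    exact hu.smul_measure ENNReal.ofReal_ne_top
  exact (memLp_map_measure_iff h2.aestronglyMeasurable
    (continuous_const_smul a).measurable.aemeasurable).1 h2

theorem ae_dil {a : ℝ} (ha : a ≠ 0) {P : ℝ × ℝ → Prop} (h : ∀ᵐ p : ℝ × ℝ, P (a⁻¹ • p)) :
    ∀ᵐ p : ℝ × ℝ, P p := by
  have h1 : Measure.map (fun p : ℝ × ℝ => a • p) volume =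
      ENNReal.ofReal |(a ^ Module.finrank ℝ (ℝ × ℝ))⁻¹| • (volume : Measure (ℝ × ℝ)) :=
    Measure.map_addHaar_smul volume ha
  have hq : Measure.QuasiMeasurePreserving (fun p : ℝ × ℝ => a • p) volume volume := by
    refine ⟨(continuous_const_smul a).measurable, ?_⟩
    rw [h1]
    exact Measure.AbsolutelyContinuous.rfl.smul_left _
  have h2 := hq.ae h
  filter_upwards [h2] with p hp
  rwa [smul_smul, inv_mul_cancel₀ ha, one_smul] at hp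

/-! ### The dilated curve -/

theorem dist2_dil (γ : ℝ → ℝ × ℝ) {a : ℝ} (ha : 0 < a) (s s' : ℝ) :
    dist2 (dilCurve a γ s) (dilCurve a γ s') = a⁻¹ * dist2 (γ (a * s)) (γ (a * s')) := by
  unfold dist2 dilCurve
  have h1 : (a⁻¹ • γ (a * s)).1 = a⁻¹ * (γ (a * s)).1 := rfl
  have h2 : (a⁻¹ • γ (a * s)).2 = a⁻¹ * (γ (a * s)).2 := rfl
  have h3 : (a⁻¹ • γ (a * s')).1 = a⁻¹ * (γ (a * s')).1 := rfl
  have h4 : (a⁻¹ • γ (a * s')).2 = a⁻¹ * (γ (a * s')).2 := rfl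
  rw [h1, h2, h3, h4]
  have h5 : (a⁻¹ * (γ (a * s)).1 - a⁻¹ * (γ (a * s')).1) ^ 2 +
      (a⁻¹ * (γ (a * s)).2 - a⁻¹ * (γ (a * s')).2) ^ 2 =
      a⁻¹ ^ 2 * (((γ (a * s)).1 - (γ (a * s')).1) ^ 2 + ((γ (a * s)).2 - (γ (a * s')).2) ^ 2) := by
    ring
  rw [h5, Real.sqrt_mul (by positivity), Real.sqrt_sq (by positivity)]

theorem arc_dil {γ : ℝ → ℝ × ℝ} (h : IsArcLength γ) {a : ℝ} (ha : 0 < a) :
    IsArcLength (dilCurve a γ) := by
  obtain ⟨hc, S, hS⟩ := h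
  refine ⟨?_, S.image fun s => a⁻¹ * s, fun s hs => ?_⟩
  · unfold dilCurve
    exact (hc.comp (continuous_const.mul continuous_id)).const_smul a⁻¹
  · have h1 : a * s ∉ S := by
      intro h
      apply hs
      rw [Finset.mem_image]
      exact ⟨a * s, h, by rw [← mul_assoc, inv_mul_cancel₀ ha.ne', one_mul]⟩
    obtain ⟨v, hv, hr⟩ := hS _ h1
    refine ⟨v, hv, ?_⟩
    have h2 : Tendsto (fun r => a * r) (𝓝 s) (𝓝 (a * s)) :=
      (continuous_const.mul continuous_id).tendsto s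
    filter_upwards [h2.eventually hr] with r hr'
    unfold dilCurve
    rw [hr', smul_add, smul_smul, ← mul_sub, ← mul_assoc, inv_mul_cancel₀ ha.ne', one_mul]

theorem chord_dil {γ : ℝ → ℝ × ℝ} (h : ChordArc γ) {a : ℝ} (ha : 0 < a) :
    ChordArc (dilCurve a γ) := by
  obtain ⟨c, hc, hc1, h⟩ := h
  refine ⟨c, hc, hc1, fun s s' => ?_⟩
  rw [dist2_dil γ ha]
  have h1 := h (a * s) (a * s')
  rw [← mul_sub, abs_mul, abs_of_pos ha] at h1
  have h2 : c * |s - s'| = a⁻¹ * (c * (a * |s - s'|)) := by field_simp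
  rw [h2]
  exact mul_le_mul_of_nonneg_left h1 (inv_pos.2 ha).le

theorem notStraight_dil {γ : ℝ → ℝ × ℝ} (h : NotStraight γ) {a : ℝ} (ha : 0 < a) :
    NotStraight (dilCurve a γ) := by
  obtain ⟨s, s', h⟩ := h
  refine ⟨a⁻¹ * s, a⁻¹ * s', ?_⟩
  rw [dist2_dil γ ha, ← mul_assoc, ← mul_assoc, mul_inv_cancel₀ ha.ne', one_mul, one_mul, ← mul_sub,
    abs_mul, abs_of_pos (inv_pos.2 ha)]
  exact mul_lt_mul_of_pos_left h (inv_pos.2 ha)

theorem straight_dil {γ : ℝ → ℝ × ℝ} (h : AsymptoticallyStraight γ) {a : ℝ} (ha : 0 < a) :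
    AsymptoticallyStraight (dilCurve a γ) := by
  obtain ⟨d, μ, ω, hd, hμ, hω, hω1, h⟩ := h
  set k : ℝ := min 1 (a ^ (2 * μ)) with hk
  have hk0 : 0 < k := lt_min one_pos (by positivity)
  refine ⟨d * k ^ (-(1 / 2) : ℝ), μ, ω, by positivity, hμ, hω, hω1, fun s s' hne h1 h2 => ?_⟩
  have hq : a * s / (a * s') = s / s' := mul_div_mul_left s s' ha.ne'
  have h3 := h (a * s) (a * s') (fun h => hne (mul_left_cancel₀ ha.ne' h)) (by rw [hq]; exact h1)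
    (by rw [hq]; exact h2)
  rw [dist2_dil γ ha]
  rw [← mul_sub, abs_mul, abs_of_pos ha, ← mul_add, abs_mul, abs_of_pos ha] at h3
  have h4 : a⁻¹ * dist2 (γ (a * s)) (γ (a * s')) / |s - s'| =
      dist2 (γ (a * s)) (γ (a * s')) / (a * |s - s'|) := by
    rw [mul_comm a⁻¹, ← div_eq_mul_inv, div_div]
  rw [h4]
  refine h3.trans ?_
  rw [mul_assoc]
  refine mul_le_mul_of_nonneg_left ?_ hd.le
  have h5 : k * (1 + |s + s'| ^ (2 * μ)) ≤ 1 + (a * |s + s'|) ^ (2 * μ) := by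
    rw [Real.mul_rpow ha.le (abs_nonneg _)]
    have e1 : k ≤ 1 := min_le_left _ _
    have e2 : k ≤ a ^ (2 * μ) := min_le_right _ _
    have e3 : 0 ≤ |s + s'| ^ (2 * μ) := by positivity
    nlinarith
  have h6 : 0 < 1 + |s + s'| ^ (2 * μ) := by positivity
  calc (1 + (a * |s + s'|) ^ (2 * μ)) ^ (-(1 / 2) : ℝ)
      ≤ (k * (1 + |s + s'| ^ (2 * μ))) ^ (-(1 / 2) : ℝ) :=
        Real.rpow_le_rpow_of_nonpos (by positivity) h5 (by norm_num)
    _ = k ^ (-(1 / 2) : ℝ) * (1 + |s + s'| ^ (2 * μ)) ^ (-(1 / 2) : ℝ) :=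
        Real.mul_rpow hk0.le h6.le

end

end Pool.Agent.U469.DE
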