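import Pool.Agent.U469.DE.S
import Pool.Agent.U469.DE.Cross2

set_option autoImplicit false

open MeasureTheory Filter Topology Complex
open scoped ComplexConjugate InnerProductSpace

namespace Pool.Agent.U469.DE

noncomputable section

/-! ### Functions of the core -/

theorem core_cont {φ : ℝ × ℝ → ℂ} (h : φ ∈ Core) : Continuous φ := h.1.continuous

theorem core_bdd {φ : ℝ × ℝ → ℂ} (h : φ ∈ Core) : ∃ M : ℝ, 0 ≤ M ∧ ∀ p, ‖φ p‖ ≤ M := by
  obtain ⟨M, hM⟩ := (core_cont h).bounded_above_of_compact_support h.2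
  exact ⟨M, (norm_nonneg _).trans (hM 0), hM⟩

theorem core_box {φ : ℝ × ℝ → ℂ} (h : φ ∈ Core) :
    ∃ A : ℝ, 0 ≤ A ∧ ∀ p, φ p ≠ 0 → |p.1| ≤ A ∧ |p.2| ≤ A := by
  obtain ⟨A, hA⟩ := h.2.isCompact.isBounded.exists_norm_le
  refine ⟨max A 0, le_max_right _ _, fun p hp => ?_⟩
  have h1 := hA p (subset_tsupport _ hp)
  rw [Prod.norm_def, Real.norm_eq_abs, Real.norm_eq_abs] at h1
  exact ⟨(le_max_left _ _).trans (h1.trans (le_max_left _ _)),
    (le_max_right _ _).trans (h1.trans (le_max_left _ _))⟩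

theorem core_memLp {φ : ℝ × ℝ → ℂ} (h : φ ∈ Core) : MemLp φ 2 (volume : Measure (ℝ × ℝ)) :=
  (core_cont h).memLp_of_hasCompactSupport h.2

theorem dX_cont {φ : ℝ × ℝ → ℂ} (h : φ ∈ Core) : Continuous (dX φ) := by
  unfold dX
  exact (h.1.continuous_fderiv one_ne_zero).clm_apply continuous_const

theorem dY_cont {φ : ℝ × ℝ → ℂ} (h : φ ∈ Core) : Continuous (dY φ) := by
  unfold dY
  exact (h.1.continuous_fderiv one_ne_zero).clm_apply continuous_const

theorem dX_tsupport (φ : ℝ × ℝ → ℂ) : tsupport (dX φ) ⊆ tsupport φ := by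
  refine (closure_mono ?_).trans (tsupport_fderiv_subset ℝ (f := φ))
  intro p hp h0
  apply hp
  show fderiv ℝ φ p (1, 0) = 0
  rw [h0]; simp

theorem dY_tsupport (φ : ℝ × ℝ → ℂ) : tsupport (dY φ) ⊆ tsupport φ := by
  refine (closure_mono ?_).trans (tsupport_fderiv_subset ℝ (f := φ))
  intro p hp h0
  apply hp
  show fderiv ℝ φ p (0, 1) = 0
  rw [h0]; simp

theorem dX_supp {φ : ℝ × ℝ → ℂ} (h : φ ∈ Core) : HasCompactSupport (dX φ) :=
  h.2.of_isClosed_subset (isClosed_tsupport _) (dX_tsupport φ)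

theorem dY_supp {φ : ℝ × ℝ → ℂ} (h : φ ∈ Core) : HasCompactSupport (dY φ) :=
  h.2.of_isClosed_subset (isClosed_tsupport _) (dY_tsupport φ)

theorem dX_memLp {φ : ℝ × ℝ → ℂ} (h : φ ∈ Core) : MemLp (dX φ) 2 (volume : Measure (ℝ × ℝ)) :=
  (dX_cont h).memLp_of_hasCompactSupport (dX_supp h)

theorem dY_memLp {φ : ℝ × ℝ → ℂ} (h : φ ∈ Core) : MemLp (dY φ) 2 (volume : Measure (ℝ × ℝ)) :=
  (dY_cont h).memLp_of_hasCompactSupport (dY_supp h)

theorem core_diff {φ : ℝ × ℝ → ℂ} (h : φ ∈ Core) : Differentiable ℝ φ :=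
  h.1.differentiable one_ne_zero

theorem dX_add {φ ψ : ℝ × ℝ → ℂ} (h : φ ∈ Core) (h' : ψ ∈ Core) : dX (φ + ψ) = dX φ + dX ψ := by
  funext p
  simp only [dX, Pi.add_apply]
  rw [fderiv_add (core_diff h p) (core_diff h' p)]
  rfl

theorem dY_add {φ ψ : ℝ × ℝ → ℂ} (h : φ ∈ Core) (h' : ψ ∈ Core) : dY (φ + ψ) = dY φ + dY ψ := by
  funext p
  simp only [dY, Pi.add_apply]
  rw [fderiv_add (core_diff h p) (core_diff h' p)]
  rfl

theorem dX_smul {φ : ℝ × ℝ → ℂ} (h : φ ∈ Core) (c : ℂ) : dX (c • φ) = c • dX φ := by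
  funext p
  simp only [dX, Pi.smul_apply]
  rw [fderiv_const_smul (core_diff h p)]
  rfl

theorem dY_smul {φ : ℝ × ℝ → ℂ} (h : φ ∈ Core) (c : ℂ) : dY (c • φ) = c • dY φ := by
  funext p
  simp only [dY, Pi.smul_apply]
  rw [fderiv_const_smul (core_diff h p)]
  rfl

theorem hgt_meas (t : ℝ) : Measurable (hgt t) := by
  unfold hgt
  refine Measurable.ite (measurableSet_lt (by fun_prop) measurable_const) measurable_const ?_
  exact Measurable.ite (measurableSet_lt (by fun_prop) measurable_const) measurable_const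
    measurable_const

theorem pos_meas : Measurable pos := by
  unfold pos
  exact Measurable.ite (measurableSet_lt measurable_id measurable_const) measurable_const
    measurable_const

/-- bounded measurable functions which vanish off a compact interval are square integrable -/
theorem memLp_bdd {f : ℝ → ℂ} (hf : Measurable f) {M A : ℝ} (hM : ∀ x, ‖f x‖ ≤ M)
    (hA : ∀ x, f x ≠ 0 → |x| ≤ A) : MemLp f 2 (volume : Measure ℝ) := by
  have h1 : MemLp ((Set.Icc (-A) A).indicator fun _ : ℝ => M) 2 (volume : Measure ℝ) :=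
    memLp_indicator_const 2 measurableSet_Icc M (Or.inr (by simp))
  refine h1.mono hf.aestronglyMeasurable (Eventually.of_forall fun x => ?_)
  by_cases hx : f x = 0
  · rw [hx, norm_zero]; exact norm_nonneg _
  · have h2 : x ∈ Set.Icc (-A) A := by
      have := hA x hx
      rw [abs_le] at this
      exact this
    rw [Set.indicator_of_mem h2, Real.norm_eq_abs]
    exact (hM x).trans (le_abs_self M)

/-- the trace on the horizontal pieces -/
def hfun (t : ℝ) (φ : ℝ × ℝ → ℂ) (x : ℝ) : ℂ := φ (x, hgt t x)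

theorem hfun_meas {φ : ℝ × ℝ → ℂ} (h : φ ∈ Core) (t : ℝ) : Measurable (hfun t φ) :=
  (core_cont h).measurable.comp (measurable_id.prodMk (hgt_meas t))

theorem hfun_memLp {φ : ℝ × ℝ → ℂ} (h : φ ∈ Core) (t : ℝ) :
    MemLp (hfun t φ) 2 (volume : Measure ℝ) := by
  obtain ⟨M, -, hM⟩ := core_bdd h
  obtain ⟨A, -, hA⟩ := core_box h
  exact memLp_bdd (hfun_meas h t) (fun x => hM _) fun x hx => (hA _ hx).1

theorem wfun_meas {φ : ℝ × ℝ → ℂ} (h : φ ∈ Core) (σ t : ℝ) : Measurable (wfun σ t φ) := by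
  unfold wfun
  refine Measurable.indicator ?_ measurableSet_Ioo
  exact (core_cont h).measurable.comp ((pos_meas.const_mul σ).prodMk measurable_id)

theorem wfun_memLp {φ : ℝ × ℝ → ℂ} (h : φ ∈ Core) (σ t : ℝ) :
    MemLp (wfun σ t φ) 2 (volume : Measure ℝ) := by
  obtain ⟨M, hM0, hM⟩ := core_bdd h
  obtain ⟨A, -, hA⟩ := core_box h
  refine memLp_bdd (wfun_meas h σ t) (M := M) (A := A) (fun y => ?_) fun y hy => ?_
  · unfold wfun
    by_cases hy : y ∈ Set.Ioo (-ste) t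
    · rw [Set.indicator_of_mem hy]; exact hM _
    · rw [Set.indicator_of_notMem hy, norm_zero]; exact hM0
  · unfold wfun at hy
    by_cases hy' : y ∈ Set.Ioo (-ste) t
    · rw [Set.indicator_of_mem hy'] at hy
      exact (hA _ hy).2
    · rw [Set.indicator_of_notMem hy'] at hy
      exact absurd rfl hy

/-! ### Inner products -/

theorem inner_toLp {α : Type} [MeasurableSpace α] {μ : Measure α} {f g : α → ℂ}
    (hf : MemLp f 2 μ) (hg : MemLp g 2 μ) :
    ⟪hf.toLp, hg.toLp⟫_ℂ = ∫ x, conj (f x) * g x ∂μ := by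
  rw [MeasureTheory.L2.inner_def]
  refine integral_congr_ae ?_
  filter_upwards [hf.coeFn_toLp, hg.coeFn_toLp] with x h1 h2
  rw [h1, h2, RCLike.inner_apply, mul_comm]

theorem norm_sq_toLp {α : Type} [MeasurableSpace α] {μ : Measure α} {f : α → ℂ}
    (hf : MemLp f 2 μ) : ‖hf.toLp‖ ^ 2 = ∫ x, ‖f x‖ ^ 2 ∂μ := by
  have h1 : ((‖hf.toLp‖ ^ 2 : ℝ) : ℂ) = ∫ x, conj (f x) * f x ∂μ := by
    rw [← inner_toLp hf hf, inner_self_eq_norm_sq_to_K]
    push_cast
    rfl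
  have h2 : (∫ x, conj (f x) * f x ∂μ) = ((∫ x, ‖f x‖ ^ 2 ∂μ : ℝ) : ℂ) := by
    rw [← integral_complex_ofReal]
    refine integral_congr_ae (Eventually.of_forall fun x => ?_)
    simp only
    rw [← Complex.normSq_eq_conj_mul_self, Complex.normSq_eq_norm_sq]
  rw [h2] at h1
  exact_mod_cast h1

/-! ### The Hilbert spaces -/

abbrev H1 := Lp ℂ 2 (volume : Measure ℝ)
abbrev H2 := Lp ℂ 2 (volume : Measure (ℝ × ℝ))
abbrev W := WithLp 2 (H2 × WithLp 2 (H2 × H2))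

def jN : Core →ₗ[ℂ] H2 where
  toFun φ := (core_memLp φ.2).toLp
  map_add' φ ψ := by rw [← MemLp.toLp_add]; rfl
  map_smul' c φ := by rw [RingHom.id_apply, ← MemLp.toLp_const_smul]; rfl

def jX : Core →ₗ[ℂ] H2 where
  toFun φ := (dX_memLp φ.2).toLp
  map_add' φ ψ := by
    rw [← MemLp.toLp_add]
    exact MemLp.toLp_congr _ _ (by rw [Submodule.coe_add, dX_add φ.2 ψ.2])
  map_smul' c φ := by
    rw [RingHom.id_apply, ← MemLp.toLp_const_smul]
    exact MemLp.toLp_congr _ _ (by rw [Submodule.coe_smul, dX_smul φ.2])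

def jY : Core →ₗ[ℂ] H2 where
  toFun φ := (dY_memLp φ.2).toLp
  map_add' φ ψ := by
    rw [← MemLp.toLp_add]
    exact MemLp.toLp_congr _ _ (by rw [Submodule.coe_add, dY_add φ.2 ψ.2])
  map_smul' c φ := by
    rw [RingHom.id_apply, ← MemLp.toLp_const_smul]
    exact MemLp.toLp_congr _ _ (by rw [Submodule.coe_smul, dY_smul φ.2])

/-- the graph of the gradient -/
def J : Core →ₗ[ℂ] W :=
  ((WithLp.linearEquiv 2 ℂ (H2 × WithLp 2 (H2 × H2))).symm : _ →ₗ[ℂ] W) ∘ₗ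
    jN.prod (((WithLp.linearEquiv 2 ℂ (H2 × H2)).symm : _ →ₗ[ℂ] WithLp 2 (H2 × H2)) ∘ₗ jX.prod jY)

/-- the Sobolev space -/
def VS : Submodule ℂ W := (LinearMap.range J).topologicalClosure

abbrev V := ↥VS

instance : CompleteSpace V := by
  have h : IsClosed (VS : Set W) := Submodule.isClosed_topologicalClosure _
  exact h.completeSpace_coe

/-- the inclusion of the core -/
def e : Core →ₗ[ℂ] V := LinearMap.codRestrict VS J fun φ =>
  Submodule.le_topologicalClosure _ (LinearMap.mem_range_self J φ)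

theorem e_dense : DenseRange e := by
  intro u
  rw [Metric.mem_closure_iff]
  intro ε hε
  have h : (u : W) ∈ closure (LinearMap.range J : Set W) := u.2
  rw [Metric.mem_closure_iff] at h
  obtain ⟨w, ⟨φ, rfl⟩, hw⟩ := h ε hε
  exact ⟨e φ, ⟨φ, rfl⟩, hw⟩

/-- the `L²` part -/
def Nop : V →L[ℂ] H2 := (WithLp.fstL 2 ℂ H2 (WithLp 2 (H2 × H2))) ∘L VS.subtypeL

/-- the gradient -/
def Dop : V →L[ℂ] WithLp 2 (H2 × H2) := (WithLp.sndL 2 ℂ H2 (WithLp 2 (H2 × H2))) ∘L VS.subtypeL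

theorem Nop_e (φ : Core) : Nop (e φ) = (core_memLp φ.2).toLp := rfl

theorem Dop_e (φ : Core) :
    Dop (e φ) = WithLp.toLp 2 ((dX_memLp φ.2).toLp, (dY_memLp φ.2).toLp) := rfl

theorem norm_V (u : V) : ‖u‖ ^ 2 = ‖Nop u‖ ^ 2 + ‖Dop u‖ ^ 2 :=
  WithLp.prod_norm_sq_eq_of_L2 (u : W)

theorem norm_Nop_e (φ : Core) : ‖Nop (e φ)‖ ^ 2 = nrm φ := by
  rw [Nop_e, norm_sq_toLp]; rfl

theorem norm_Dop_e (φ : Core) : ‖Dop (e φ)‖ ^ 2 = gX φ + gY φ := by
  rw [Dop_e, WithLp.prod_norm_sq_eq_of_L2]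
  exact congrArg₂ (· + ·) (norm_sq_toLp (dX_memLp φ.2)) (norm_sq_toLp (dY_memLp φ.2))

theorem norm_e (φ : Core) : ‖e φ‖ ^ 2 = nrm φ + (gX φ + gY φ) := by
  rw [norm_V, norm_Nop_e, norm_Dop_e]

theorem nrm_nonneg (φ : ℝ × ℝ → ℂ) : 0 ≤ nrm φ := integral_nonneg fun _ => by positivity
theorem gX_nonneg (φ : ℝ × ℝ → ℂ) : 0 ≤ gX φ := integral_nonneg fun _ => by positivity
theorem gY_nonneg (φ : ℝ × ℝ → ℂ) : 0 ≤ gY φ := integral_nonneg fun _ => by positivity

end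

end Pool.Agent.U469.DE
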