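import Pool.Agent.U469.DE.Space
import Pool.Agent.U913.DE.Bounds

set_option autoImplicit false

open MeasureTheory Filter Topology Complex
open scoped ComplexConjugate InnerProductSpace

namespace Pool.Agent.U469.DE

noncomputable section

/-! ### The traces -/

def hop (t : ℝ) : Core →ₗ[ℂ] H1 where
  toFun φ := (hfun_memLp φ.2 t).toLp
  map_add' φ ψ := by rw [← MemLp.toLp_add]; rfl
  map_smul' c φ := by rw [RingHom.id_apply, ← MemLp.toLp_const_smul]; rfl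

theorem wfun_add (σ t : ℝ) (φ ψ : ℝ × ℝ → ℂ) : wfun σ t (φ + ψ) = wfun σ t φ + wfun σ t ψ := by
  unfold wfun
  rw [← Set.indicator_add']
  rfl

theorem wfun_smul (σ t : ℝ) (c : ℂ) (φ : ℝ × ℝ → ℂ) : wfun σ t (c • φ) = c • wfun σ t φ := by
  funext y
  unfold wfun
  by_cases hy : y ∈ Set.Ioo (-ste) t
  · rw [Pi.smul_apply, Set.indicator_of_mem hy, Set.indicator_of_mem hy]
    rfl
  · rw [Pi.smul_apply, Set.indicator_of_notMem hy, Set.indicator_of_notMem hy, smul_zero]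

def wop (σ t : ℝ) : Core →ₗ[ℂ] H1 where
  toFun φ := (wfun_memLp φ.2 σ t).toLp
  map_add' φ ψ := by
    rw [← MemLp.toLp_add]
    exact MemLp.toLp_congr _ _ (by rw [Submodule.coe_add, wfun_add])
  map_smul' c φ := by
    rw [RingHom.id_apply, ← MemLp.toLp_const_smul]
    exact MemLp.toLp_congr _ _ (by rw [Submodule.coe_smul, wfun_smul])

theorem norm_hop (t : ℝ) (φ : Core) : ‖hop t φ‖ ^ 2 = hor t φ := norm_sq_toLp (hfun_memLp φ.2 t)

theorem norm_wop (σ t : ℝ) (φ : Core) : ‖wop σ t φ‖ ^ 2 =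
    ∫ y in Set.Ioo (-ste) t, ‖(φ : ℝ × ℝ → ℂ) (σ * pos y, y)‖ ^ 2 := by
  refine (norm_sq_toLp (wfun_memLp φ.2 σ t)).trans ?_
  rw [← integral_indicator measurableSet_Ioo]
  congr 1
  funext y
  unfold wfun
  by_cases hy : y ∈ Set.Ioo (-ste) t
  · rw [Set.indicator_of_mem hy, Set.indicator_of_mem hy]
  · rw [Set.indicator_of_notMem hy, Set.indicator_of_notMem hy]; simp

theorem wcol_int {φ : ℝ × ℝ → ℂ} (h : φ ∈ Core) (σ t : ℝ) :
    IntegrableOn (fun y => ‖φ (σ * pos y, y)‖ ^ 2) (Set.Ioo (-ste) t) := by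
  obtain ⟨M, hM0, hM⟩ := core_bdd h
  have hm : Measurable fun y => ‖φ (σ * pos y, y)‖ ^ 2 :=
    (((core_cont h).measurable.comp ((pos_meas.const_mul σ).prodMk measurable_id)).norm).pow_const 2
  refine Measure.integrableOn_of_bounded (M := M ^ 2) (by simp) hm.aestronglyMeasurable
    (Eventually.of_forall fun y => ?_)
  rw [Real.norm_eq_abs, abs_of_nonneg (by positivity)]
  exact pow_le_pow_left₀ (norm_nonneg _) (hM _) 2

theorem norm_wop_add (t : ℝ) (φ : Core) : ‖wop 1 t φ‖ ^ 2 + ‖wop (-1) t φ‖ ^ 2 = wal t φ := by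
  rw [norm_wop, norm_wop, ← integral_add (wcol_int φ.2 1 t) (wcol_int φ.2 (-1) t)]
  unfold wal
  simp only [one_mul, neg_mul]

open Pool.Agent.U913.DE (jobHor jobWal jobCont)

theorem hop_bound (t : ℝ) (φ : Core) : ‖hop t φ‖ ≤ 1 * ‖e φ‖ := by
  rw [one_mul]
  refine le_of_sq_le_sq ?_ (norm_nonneg _)
  rw [norm_hop, norm_e]
  have h := jobHor φ φ.2 t 1 one_pos
  have h1 := nrm_nonneg φ
  have h2 := gX_nonneg φ
  have h3 := gY_nonneg φ
  linarith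

theorem wop_bound (σ t : ℝ) (hσ : σ = 1 ∨ σ = -1) (φ : Core) : ‖wop σ t φ‖ ≤ 1 * ‖e φ‖ := by
  rw [one_mul]
  refine le_of_sq_le_sq ?_ (norm_nonneg _)
  have h0 := norm_wop_add t φ
  have h4 : ‖wop σ t φ‖ ^ 2 ≤ wal t φ := by
    rcases hσ with rfl | rfl
    · have : 0 ≤ ‖wop (-1) t φ‖ ^ 2 := by positivity
      linarith
    · have : 0 ≤ ‖wop 1 t φ‖ ^ 2 := by positivity
      linarith
  refine h4.trans ?_
  rw [norm_e]
  have h := jobWal φ φ.2 t 1 one_pos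
  have h3 := gY_nonneg φ
  linarith

def Xop (t : ℝ) : V →L[ℂ] H1 := (hop t).extendOfNorm e

def Wop (σ t : ℝ) : V →L[ℂ] H1 := (wop σ t).extendOfNorm e

theorem Xop_e (t : ℝ) (φ : Core) : Xop t (e φ) = hop t φ :=
  LinearMap.extendOfNorm_eq e_dense ⟨1, hop_bound t⟩ φ

theorem Wop_e (σ t : ℝ) (hσ : σ = 1 ∨ σ = -1) (φ : Core) : Wop σ t (e φ) = wop σ t φ :=
  LinearMap.extendOfNorm_eq e_dense ⟨1, wop_bound σ t hσ⟩ φ

def Kop (t : ℝ) : V →L[ℂ] WithLp 2 (H1 × H1) :=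
  ((WithLp.prodContinuousLinearEquiv 2 ℂ H1 H1).symm : H1 × H1 →L[ℂ] WithLp 2 (H1 × H1)) ∘L
    ((Wop 1 t).prod (Wop (-1) t))

theorem norm_Kop (t : ℝ) (u : V) : ‖Kop t u‖ ^ 2 = ‖Wop 1 t u‖ ^ 2 + ‖Wop (-1) t u‖ ^ 2 :=
  WithLp.prod_norm_sq_eq_of_L2 _

theorem norm_Kop_e (t : ℝ) (φ : Core) : ‖Kop t (e φ)‖ ^ 2 = wal t φ := by
  rw [norm_Kop, Wop_e 1 t (Or.inl rfl), Wop_e (-1) t (Or.inr rfl), norm_wop_add]

theorem norm_Xop_e (t : ℝ) (φ : Core) : ‖Xop t (e φ)‖ ^ 2 = hor t φ := by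
  rw [Xop_e, norm_hop]

/-- the family of forms -/
def fam (t : ℝ) : Abs.Forms V H2 (WithLp 2 (H2 × H2)) H1 (WithLp 2 (H1 × H1)) :=
  ⟨Nop, Dop, Xop t, Kop t⟩

theorem fam_q_e (t : ℝ) (φ : Core) : (fam t).q (e φ) = Q t φ := by
  show ‖Dop (e φ)‖ ^ 2 + ‖Nop (e φ)‖ ^ 2 / 4 - ‖Xop t (e φ)‖ ^ 2 - ‖Kop t (e φ)‖ ^ 2 = _
  rw [norm_Dop_e, norm_Nop_e, norm_Xop_e, norm_Kop_e]
  rfl

theorem fam_h4 (t : ℝ) (u : V) :
    ‖(fam t).X u‖ ^ 2 ≤ ‖(fam t).D u‖ ^ 2 + ‖(fam t).N u‖ ^ 2 / 4 := by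
  refine e_dense.induction_on u ?_ fun φ => ?_
  · exact isClosed_le (by fun_prop) (by fun_prop)
  · show ‖Xop t (e φ)‖ ^ 2 ≤ ‖Dop (e φ)‖ ^ 2 + ‖Nop (e φ)‖ ^ 2 / 4
    rw [norm_Dop_e, norm_Nop_e, norm_Xop_e]
    have h := jobHor φ φ.2 t 2 two_pos
    have h2 := gX_nonneg φ
    linarith

theorem fam_h5 (t : ℝ) (u : V) : ‖u‖ ^ 2 ≤ 3 * ((fam t).q u + 3 * ‖(fam t).N u‖ ^ 2) := by
  refine e_dense.induction_on u ?_ fun φ => ?_
  · have := (fam t).q_cont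
    exact isClosed_le (by fun_prop) (by fun_prop)
  · rw [fam_q_e]
    show _ ≤ 3 * (_ + 3 * ‖Nop (e φ)‖ ^ 2)
    rw [norm_Nop_e, norm_e]
    have h := jobHor φ φ.2 t 1 one_pos
    have h' := jobWal φ φ.2 t (1 / 2) (by norm_num)
    have h1 := nrm_nonneg φ
    have h2 := gX_nonneg φ
    have h3 := gY_nonneg φ
    unfold Q
    rw [div_one] at h
    have h5 : nrm φ / (1 / 2) = 2 * nrm φ := by ring
    rw [h5] at h'
    linarith

theorem fam_cont (s : ℝ) (hs : s ∈ Set.Icc 0 top) (t : ℝ) (ht : t ∈ Set.Icc 0 top) (u : V) :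
    |(fam s).q u - (fam t).q u| ≤ 4 * √|s - t| * ‖u‖ ^ 2 := by
  refine e_dense.induction_on u ?_ fun φ => ?_
  · have h1 := (fam t).q_cont
    have h2 := (fam s).q_cont
    exact isClosed_le (h2.sub h1).abs (by fun_prop)
  · rw [fam_q_e, fam_q_e, norm_e]
    have h := jobCont φ φ.2 s hs t ht
    have h6 : Q s φ - Q t φ = -(hor s φ + wal s φ - (hor t φ + wal t φ)) := by
      unfold Q; ring
    rw [h6, abs_neg]
    refine h.trans (le_of_eq ?_)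
    ring

theorem compact_of_approx {V F : Type} [NormedAddCommGroup V] [InnerProductSpace ℂ V]
    [NormedAddCommGroup F] [InnerProductSpace ℂ F] [CompleteSpace F] (W : V →L[ℂ] F)
    (h : ∀ ε : ℝ, 0 < ε → ∃ K : V →L[ℂ] F, IsCompactOperator K ∧ ∀ u, ‖W u - K u‖ ≤ ε * ‖u‖) :
    IsCompactOperator W := by
  choose K hK hKb using fun n : ℕ => h (1 / ((n : ℝ) + 1)) (by positivity)
  have h1 : Tendsto K atTop (𝓝 W) := by
    refine tendsto_iff_norm_sub_tendsto_zero.2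
      (squeeze_zero (fun n => norm_nonneg _) (fun n => ?_) tendsto_one_div_add_atTop_nhds_zero_nat)
    rw [norm_sub_rev]
    exact ContinuousLinearMap.opNorm_le_bound _ (by positivity) (hKb n)
  exact isCompactOperator_of_tendsto h1 (Eventually.of_forall hK)

theorem Wop_compact (hC : JobCpt) (σ t : ℝ) (hσ : σ = 1 ∨ σ = -1) (ht : t ∈ Set.Icc 0 top) :
    IsCompactOperator (Wop σ t) := by
  refine compact_of_approx (V := V) (F := H1) (Wop σ t) fun ε hε => ?_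
  obtain ⟨K, hK, hKb⟩ := hC σ t (ε ^ 2) hσ ht (by positivity)
  refine ⟨K ∘L Nop, hK.comp_clm Nop, fun u => ?_⟩
  refine e_dense.induction_on u ?_ fun φ => ?_
  · exact isClosed_le (by fun_prop) (by fun_prop)
  · refine le_of_sq_le_sq ?_ (by positivity)
    rw [mul_pow, norm_e]
    have h := hKb φ φ.2 (core_memLp φ.2) (wfun_memLp φ.2 σ t)
    rw [← add_assoc]
    refine le_trans (le_of_eq ?_) h
    congr 2
    show Wop σ t (e φ) - K (Nop (e φ)) = _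
    rw [Wop_e σ t hσ, Nop_e]
    rfl

theorem Kop_compact (hC : JobCpt) (t : ℝ) (ht : t ∈ Set.Icc 0 top) : IsCompactOperator (Kop t) := by
  have h1 := Wop_compact hC 1 t (Or.inl rfl) ht
  have h2 := Wop_compact hC (-1) t (Or.inr rfl) ht
  have h3 : IsCompactOperator ((Wop 1 t).prod (Wop (-1) t)) := by
    obtain ⟨K1, hK1, hn1⟩ := h1
    obtain ⟨K2, hK2, hn2⟩ := h2
    refine ⟨K1 ×ˢ K2, hK1.prod hK2, ?_⟩
    filter_upwards [hn1, hn2] with u hu hu'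
    exact ⟨hu, hu'⟩
  exact h3.clm_comp
    ((WithLp.prodContinuousLinearEquiv 2 ℂ H1 H1).symm : H1 × H1 →L[ℂ] WithLp 2 (H1 × H1))

end

end Pool.Agent.U469.DE
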