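import Pool.Agent.U469.DE.Space2

set_option autoImplicit false

open MeasureTheory Filter Topology Complex
open scoped ComplexConjugate InnerProductSpace

namespace Pool.Agent.U469.DE

noncomputable section

/-! ### The weight of the functional -/

theorem exp_abs_int : Integrable (fun z : ℝ => Real.exp (-|z|)) := by
  rw [← integrableOn_univ, ← Set.Iic_union_Ioi (a := (0 : ℝ))]
  refine IntegrableOn.union ?_ ?_
  · refine (integrableOn_exp_Iic 0).congr_fun (fun z hz => ?_) measurableSet_Iic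
    rw [abs_of_nonpos hz, neg_neg]
  · refine (integrableOn_exp_neg_Ioi 0).congr_fun (fun z hz => ?_) measurableSet_Ioi
    rw [abs_of_pos hz]

/-- the weight -/
def wei (y : ℝ) : ℂ := ((Real.exp (-(|y + ste| / 2)) : ℝ) : ℂ)

theorem wei_cont : Continuous wei := by
  unfold wei
  fun_prop

theorem wei_memLp : MemLp wei 2 (volume : Measure ℝ) := by
  rw [memLp_two_iff_integrable_sq_norm wei_cont.aestronglyMeasurable]
  refine (exp_abs_int.comp_add_right ste).congr (Eventually.of_forall fun y => ?_)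
  simp only [wei]
  rw [Complex.norm_real, Real.norm_eq_abs, abs_of_pos (Real.exp_pos _), ← Real.exp_nat_mul]
  congr 1
  push_cast
  ring

/-- the trace on the line through the wall at `rad` -/
def rfun (φ : ℝ × ℝ → ℂ) (y : ℝ) : ℂ := φ (rad, y)

theorem rfun_memLp {φ : ℝ × ℝ → ℂ} (h : φ ∈ Core) : MemLp (rfun φ) 2 (volume : Measure ℝ) := by
  obtain ⟨M, -, hM⟩ := core_bdd h
  obtain ⟨A, -, hA⟩ := core_box h
  refine memLp_bdd ?_ (fun x => hM _) fun x hx => (hA _ hx).2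
  exact (core_cont h).measurable.comp (measurable_const.prodMk measurable_id)

theorem rfun_bound (φ : Core) : ‖(rfun_memLp φ.2).toLp‖ ≤ ‖e φ‖ := by
  refine le_of_sq_le_sq ?_ (norm_nonneg _)
  rw [norm_sq_toLp, norm_e]
  have h1 : (∫ y, ‖rfun φ y‖ ^ 2) ≤ ∫ p : ℝ × ℝ, ‖(φ : ℝ × ℝ → ℂ) p‖ * ‖dX φ p‖ := by
    rw [← (Pool.Agent.U913.DE.rowX φ.2).2]
    refine integral_mono_of_nonneg (Eventually.of_forall fun y => by positivity)
      (Pool.Agent.U913.DE.rowX φ.2).1 (Eventually.of_forall fun y => ?_)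
    exact Pool.Agent.U913.DE.trX φ.2 rad y
  have h2 := Pool.Agent.U913.DE.mean_X φ.2 1 one_pos
  have h3 := nrm_nonneg φ
  have h4 := gX_nonneg φ
  have h5 := gY_nonneg φ
  rw [div_one, one_mul] at h2
  linarith

theorem ell_eq (φ : Core) : ell φ = ⟪wei_memLp.toLp, (rfun_memLp φ.2).toLp⟫_ℂ := by
  rw [inner_toLp]
  unfold ell
  congr 1
  funext y
  simp only [wei, rfun]
  rw [Complex.conj_ofReal, mul_comm]

/-- the functional on the core -/
def ellC : Core →ₗ[ℂ] ℂ where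
  toFun φ := ell φ
  map_add' φ ψ := by
    rw [ell_eq, ell_eq, ell_eq, ← inner_add_right, ← MemLp.toLp_add]
    rfl
  map_smul' c φ := by
    rw [RingHom.id_apply, smul_eq_mul, ell_eq, ell_eq, ← inner_smul_right,
      ← MemLp.toLp_const_smul]
    rfl

theorem ellC_bound (φ : Core) : ‖ellC φ‖ ≤ ‖wei_memLp.toLp‖ * ‖e φ‖ := by
  show ‖ell φ‖ ≤ _
  rw [ell_eq]
  exact (norm_inner_le_norm _ _).trans
    (mul_le_mul_of_nonneg_left (rfun_bound φ) (norm_nonneg _))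

/-- the functional on the Sobolev space -/
def Lop : V →L[ℂ] ℂ := ellC.extendOfNorm e

theorem Lop_e (φ : Core) : Lop (e φ) = ell φ :=
  LinearMap.extendOfNorm_eq e_dense ⟨_, ellC_bound⟩ φ

/-! ### The sectors -/

def EvC : Submodule ℂ Core where
  carrier := {φ | IsEven φ}
  add_mem' := fun {a b} ha hb x y => by
    show (a : ℝ × ℝ → ℂ) (-x, y) + (b : ℝ × ℝ → ℂ) (-x, y) = _
    rw [ha x y, hb x y]; rfl
  zero_mem' := fun x y => rfl
  smul_mem' := fun c {a} ha x y => by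
    show c • (a : ℝ × ℝ → ℂ) (-x, y) = _
    rw [ha x y]; rfl

def OdC : Submodule ℂ Core where
  carrier := {φ | IsOdd φ}
  add_mem' := fun {a b} ha hb x y => by
    show (a : ℝ × ℝ → ℂ) (-x, y) + (b : ℝ × ℝ → ℂ) (-x, y) = _
    rw [ha x y, hb x y, ← neg_add]; rfl
  zero_mem' := fun x y => by
    show (0 : ℂ) = -0
    rw [neg_zero]
  smul_mem' := fun c {a} ha x y => by
    show c • (a : ℝ × ℝ → ℂ) (-x, y) = _
    rw [ha x y, smul_neg]; rfl

def Se : Submodule ℂ V := (EvC.map e).topologicalClosure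

def So : Submodule ℂ V := (OdC.map e).topologicalClosure

theorem Se_closed : IsClosed (Se : Set V) := Submodule.isClosed_topologicalClosure _

theorem So_closed : IsClosed (So : Set V) := Submodule.isClosed_topologicalClosure _

theorem Se_ind {P : V → Prop} (hP : IsClosed {u | P u})
    (h : ∀ φ : Core, IsEven φ → P (e φ)) : ∀ u ∈ Se, P u := by
  intro u hu
  have h1 : (EvC.map e : Set V) ⊆ {u | P u} := by
    rintro _ ⟨φ, hφ, rfl⟩
    exact h φ hφ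
  exact (closure_minimal h1 hP) hu

theorem So_ind {P : V → Prop} (hP : IsClosed {u | P u})
    (h : ∀ φ : Core, IsOdd φ → P (e φ)) : ∀ u ∈ So, P u := by
  intro u hu
  have h1 : (OdC.map e : Set V) ⊆ {u | P u} := by
    rintro _ ⟨φ, hφ, rfl⟩
    exact h φ hφ
  exact (closure_minimal h1 hP) hu

theorem e_mem_Se {φ : Core} (h : IsEven φ) : e φ ∈ Se :=
  Submodule.le_topologicalClosure _ ⟨φ, h, rfl⟩

theorem e_mem_So {φ : Core} (h : IsOdd φ) : e φ ∈ So :=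
  Submodule.le_topologicalClosure _ ⟨φ, h, rfl⟩

theorem fam_odd (h : JobTestOdd) : ∀ t ∈ Set.Icc 0 top, ∃ u ∈ So, (fam t).q u < 0 := by
  obtain ⟨φ, hφ, ho, hq⟩ := h
  intro t ht
  refine ⟨e ⟨φ, hφ⟩, e_mem_So ho, ?_⟩
  rw [fam_q_e]
  exact hq t ht

theorem fam_low (h : JobOdd) : ∀ u ∈ So, -(1 / 4) * ‖(fam top).N u‖ ^ 2 ≤ (fam top).q u := by
  refine So_ind ?_ fun φ hφ => ?_
  · have := (fam top).q_cont
    exact isClosed_le (by fun_prop) this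
  · rw [fam_q_e]
    show -(1 / 4) * ‖Nop (e φ)‖ ^ 2 ≤ _
    rw [norm_Nop_e]
    have := h φ φ.2 hφ top ⟨by norm_num [top], le_rfl⟩
    linarith

theorem fam_zero (h : JobEven) : ∀ u ∈ Se, Lop u = 0 → 0 ≤ (fam 0).q u := by
  obtain ⟨C, hC, hE⟩ := h
  have h1 : ∀ u ∈ Se, -(C * ‖Lop u‖ ^ 2) ≤ (fam 0).q u := by
    refine Se_ind ?_ fun φ hφ => ?_
    · have := (fam 0).q_cont
      exact isClosed_le (by fun_prop) this
    · rw [fam_q_e, Lop_e]
      exact hE φ φ.2 hφ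
  intro u hu hL
  have := h1 u hu
  rw [hL] at this
  simpa using this

/-! ### Functions with disjoint supports -/

section disj

variable {φ ψ : ℝ × ℝ → ℂ} (hφ : φ ∈ Core) (hψ : ψ ∈ Core) (h1 : ∀ x y : ℝ, 10 < y → φ (x, y) = 0)
  (h2 : ∀ x y : ℝ, y < 10 → ψ (x, y) = 0)

include h1 h2

theorem disj_pt (x y : ℝ) (hy : y ≠ 10) : ‖(φ + ψ) (x, y)‖ ^ 2 = ‖φ (x, y)‖ ^ 2 + ‖ψ (x, y)‖ ^ 2 := by
  rcases lt_or_gt_of_ne hy with h | h
  · rw [Pi.add_apply, h2 x y h, add_zero, norm_zero]; ring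
  · rw [Pi.add_apply, h1 x y h, zero_add, norm_zero]; ring

omit h1 in
theorem disj_d2 (x y : ℝ) (hy : y < 10) : fderiv ℝ ψ (x, y) = 0 := by
  have : ψ =ᶠ[𝓝 (x, y)] fun _ => 0 := by
    have ho : IsOpen {p : ℝ × ℝ | p.2 < 10} := isOpen_lt continuous_snd continuous_const
    filter_upwards [ho.mem_nhds (show (x, y) ∈ {p : ℝ × ℝ | p.2 < 10} from hy)] with p hp
    exact h2 p.1 p.2 hp
  rw [this.fderiv_eq]
  simp

omit h2 in
theorem disj_d1 (x y : ℝ) (hy : 10 < y) : fderiv ℝ φ (x, y) = 0 := by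
  have : φ =ᶠ[𝓝 (x, y)] fun _ => 0 := by
    have ho : IsOpen {p : ℝ × ℝ | 10 < p.2} := isOpen_lt continuous_const continuous_snd
    filter_upwards [ho.mem_nhds (show (x, y) ∈ {p : ℝ × ℝ | 10 < p.2} from hy)] with p hp
    exact h1 p.1 p.2 hp
  rw [this.fderiv_eq]
  simp

omit h1 h2 in
theorem ae_ne : ∀ᵐ p : ℝ × ℝ, p.2 ≠ 10 := by
  have h3 : ∀ᵐ p : ℝ × ℝ ∂((volume : Measure ℝ).prod (volume : Measure ℝ)), p.2 ≠ 10 := by
    have h4 : ∀ᵐ y : ℝ, y ≠ 10 := by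
      rw [ae_iff]
      simp
    exact Measure.quasiMeasurePreserving_snd.ae h4
  rwa [← Measure.volume_eq_prod] at h3

theorem disj_pt_d (v : ℝ × ℝ) (p : ℝ × ℝ) (hp : p.2 ≠ 10) :
    ‖fderiv ℝ φ p v + fderiv ℝ ψ p v‖ ^ 2 = ‖fderiv ℝ φ p v‖ ^ 2 + ‖fderiv ℝ ψ p v‖ ^ 2 := by
  obtain ⟨x, y⟩ := p
  rcases lt_or_gt_of_ne hp with h | h
  · rw [disj_d2 h2 x y h]
    simp
  · rw [disj_d1 h1 x y h]
    simp

include hφ hψ

theorem disj_nrm : nrm (φ + ψ) = nrm φ + nrm ψ := by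
  unfold nrm
  rw [← integral_add (core_memLp hφ).norm.integrable_sq (core_memLp hψ).norm.integrable_sq]
  refine integral_congr_ae ?_
  filter_upwards [ae_ne] with p hp
  exact disj_pt h1 h2 p.1 p.2 hp

theorem disj_gX : gX (φ + ψ) = gX φ + gX ψ := by
  unfold gX
  rw [← integral_add (dX_memLp hφ).norm.integrable_sq (dX_memLp hψ).norm.integrable_sq, dX_add hφ hψ]
  refine integral_congr_ae ?_
  filter_upwards [ae_ne] with p hp
  exact disj_pt_d h1 h2 (1, 0) p hp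

theorem disj_gY : gY (φ + ψ) = gY φ + gY ψ := by
  unfold gY
  rw [← integral_add (dY_memLp hφ).norm.integrable_sq (dY_memLp hψ).norm.integrable_sq, dY_add hφ hψ]
  refine integral_congr_ae ?_
  filter_upwards [ae_ne] with p hp
  exact disj_pt_d h1 h2 (0, 1) p hp

theorem disj_hor : hor top (φ + ψ) = hor top φ + hor top ψ := by
  unfold hor
  rw [← integral_add (Pool.Agent.U913.DE.int_hor hφ top) (Pool.Agent.U913.DE.int_hor hψ top)]
  congr 1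
  funext x
  refine disj_pt h1 h2 x _ ?_
  unfold hgt
  split_ifs <;> norm_num [top, ste]

theorem disj_wal : wal top (φ + ψ) = wal top φ + wal top ψ := by
  have hi : ∀ {χ : ℝ × ℝ → ℂ}, χ ∈ Core → IntegrableOn
      (fun y => ‖χ (pos y, y)‖ ^ 2 + ‖χ (-pos y, y)‖ ^ 2) (Set.Ioo (-ste) top) := by
    intro χ hχ
    exact (Pool.Agent.U913.DE.int_wal hχ).integrableOn
  unfold wal
  rw [← integral_add (hi hφ) (hi hψ)]
  refine integral_congr_ae (ae_restrict_of_ae ?_)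
  have h4 : ∀ᵐ y : ℝ, y ≠ 10 := by
    rw [ae_iff]
    simp
  filter_upwards [h4] with y hy
  rw [disj_pt h1 h2 _ y hy, disj_pt h1 h2 _ y hy]
  ring

theorem disj_Q : Q top (φ + ψ) = Q top φ + Q top ψ := by
  unfold Q
  rw [disj_nrm hφ hψ h1 h2, disj_gX hφ hψ h1 h2, disj_gY hφ hψ h1 h2, disj_hor hφ hψ h1 h2,
    disj_wal hφ hψ h1 h2]
  ring

end disj

theorem Q_smul (c : ℂ) (φ : Core) (t : ℝ) : Q t ((c • φ : Core) : ℝ × ℝ → ℂ) = ‖c‖ ^ 2 * Q t φ := by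
  rw [← fam_q_e, ← fam_q_e, map_smul, Abs.Forms.q_smul]

theorem nrm_smul (c : ℂ) (φ : Core) : nrm ((c • φ : Core) : ℝ × ℝ → ℂ) = ‖c‖ ^ 2 * nrm φ := by
  rw [← norm_Nop_e, ← norm_Nop_e, map_smul, map_smul, norm_smul, mul_pow]

theorem fam_up (h : JobTestEven) : ∃ l : ℝ, l < -(1 / 4) ∧
    ∃ u ∈ Se, ∃ v ∈ Se, Abs.Pair (fam top) l u v := by
  obtain ⟨φ, hφ, ψ, hψ, he, he', hs, hs', hq, hq'⟩ := h
  obtain ⟨l, hl, h1, h2⟩ : ∃ l : ℝ, l < -(1 / 4) ∧ Q top φ < l * nrm φ ∧ Q top ψ < l * nrm ψ := by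
    have hc : ∀ χ : ℝ × ℝ → ℂ, Q top χ < -(nrm χ / 4) →
        ∀ᶠ l in 𝓝[<] (-(1 / 4) : ℝ), Q top χ < l * nrm χ := by
      intro χ hχ
      have h3 : Tendsto (fun l : ℝ => l * nrm χ) (𝓝[<] (-(1 / 4) : ℝ)) (𝓝 (-(1 / 4) * nrm χ)) :=
        ((continuous_id.mul continuous_const).tendsto (-(1 / 4) : ℝ)).mono_left nhdsWithin_le_nhds
      exact h3.eventually (lt_mem_nhds (by linarith))
    obtain ⟨l, h3, h4, h5⟩ := ((hc φ hq).and ((hc ψ hq').and self_mem_nhdsWithin)).exists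
    exact ⟨l, h5, h3, h4⟩
  refine ⟨l, hl, e ⟨φ, hφ⟩, e_mem_Se he, e ⟨ψ, hψ⟩, e_mem_Se he', fun c d hcd => ?_⟩
  have h3 : c • e ⟨φ, hφ⟩ + d • e ⟨ψ, hψ⟩ = e (c • ⟨φ, hφ⟩ + d • ⟨ψ, hψ⟩) := by
    rw [map_add, map_smul, map_smul]
  rw [h3, fam_q_e]
  show _ < l * ‖Nop (e _)‖ ^ 2
  rw [norm_Nop_e]
  set φ' : Core := c • ⟨φ, hφ⟩ with hφ'
  set ψ' : Core := d • ⟨ψ, hψ⟩ with hψ'
  have a1 : ∀ x y : ℝ, 10 < y → (φ' : ℝ × ℝ → ℂ) (x, y) = 0 := by
    intro x y hy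
    show c • φ (x, y) = 0
    rw [hs x y (fun h => absurd h.2 (not_le.2 hy)), smul_zero]
  have a2 : ∀ x y : ℝ, y < 10 → (ψ' : ℝ × ℝ → ℂ) (x, y) = 0 := by
    intro x y hy
    show d • ψ (x, y) = 0
    rw [hs' x y (fun h => absurd h.1 (not_le.2 hy)), smul_zero]
  have b1 := disj_Q φ'.2 ψ'.2 a1 a2
  have b2 := disj_nrm φ'.2 ψ'.2 a1 a2
  rw [Submodule.coe_add, b1, b2, hφ', hψ', Q_smul, Q_smul, nrm_smul, nrm_smul]
  show ‖c‖ ^ 2 * Q top φ + ‖d‖ ^ 2 * Q top ψ < l * (‖c‖ ^ 2 * nrm φ + ‖d‖ ^ 2 * nrm ψ)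
  have hc0 : 0 ≤ ‖c‖ ^ 2 := by positivity
  have hd0 : 0 ≤ ‖d‖ ^ 2 := by positivity
  rcases hcd with h | h
  · have : 0 < ‖c‖ ^ 2 := by positivity
    have e1 := mul_lt_mul_of_pos_left h1 this
    have e2 := mul_le_mul_of_nonneg_left h2.le hd0
    nlinarith
  · have : 0 < ‖d‖ ^ 2 := by positivity
    have e1 := mul_le_mul_of_nonneg_left h1.le hc0
    have e2 := mul_lt_mul_of_pos_left h2 this
    nlinarith

/-- the crossing -/
theorem crossing (hC : JobCpt) (hO : JobOdd) (hE : JobEven) (hTO : JobTestOdd)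
    (hTE : JobTestEven) : ∃ t ∈ Set.Ioo 0 top, ∃ m : ℝ, m < 0 ∧
      (∃ u ∈ So, ‖Nop u‖ = 1 ∧ ∀ v ∈ So, (fam t).B v u = m * ⟪Nop v, Nop u⟫_ℂ) ∧
      (∃ u ∈ Se, ‖Nop u‖ = 1 ∧ ∀ v ∈ Se, (fam t).B v u = m * ⟪Nop v, Nop u⟫_ℂ) := by
  obtain ⟨l, hl, hup⟩ := fam_up hTE
  exact Abs.crossing fam Se So Se_closed So_closed (by norm_num [top]) (by norm_num : (0 : ℝ) < 3)
    (by norm_num : (0 : ℝ) ≤ 4) (fun t => rfl) fam_h4 fam_h5 (fun t ht => Kop_compact hC t ht)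
    fam_cont (fam_odd hTO) Lop (fam_zero hE) hl (by norm_num) (fam_low hO) hup

end

end Pool.Agent.U469.DE
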