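import Pool.Agent.U469.DE.Space3

set_option autoImplicit false

open MeasureTheory Filter Topology Complex
open scoped ComplexConjugate InnerProductSpace

namespace Pool.Agent.U469.DE

noncomputable section

/-! ### The sesquilinear form on the core -/

theorem B_e (t : ℝ) (φ ψ : Core) : (fam t).B (e φ) (e ψ) =
    ((∫ p : ℝ × ℝ, conj (dX φ p) * dX ψ p) + ∫ p : ℝ × ℝ, conj (dY φ p) * dY ψ p) +
      (∫ p : ℝ × ℝ, conj ((φ : ℝ × ℝ → ℂ) p) * (ψ : ℝ × ℝ → ℂ) p) / 4 -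
      (∫ x : ℝ, conj (hfun t φ x) * hfun t ψ x) -
      ((∫ y : ℝ, conj (wfun 1 t φ y) * wfun 1 t ψ y) +
        ∫ y : ℝ, conj (wfun (-1) t φ y) * wfun (-1) t ψ y) := by
  have h1 : ⟪Dop (e φ), Dop (e ψ)⟫_ℂ = (∫ p : ℝ × ℝ, conj (dX φ p) * dX ψ p) +
      ∫ p : ℝ × ℝ, conj (dY φ p) * dY ψ p := by
    rw [Dop_e, Dop_e, WithLp.prod_inner_apply]
    exact congrArg₂ (· + ·) (inner_toLp (dX_memLp φ.2) (dX_memLp ψ.2))
      (inner_toLp (dY_memLp φ.2) (dY_memLp ψ.2))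
  have h2 : ⟪Nop (e φ), Nop (e ψ)⟫_ℂ = ∫ p : ℝ × ℝ, conj ((φ : ℝ × ℝ → ℂ) p) * (ψ : ℝ × ℝ → ℂ) p := by
    rw [Nop_e, Nop_e, inner_toLp]
  have h3 : ⟪Xop t (e φ), Xop t (e ψ)⟫_ℂ = ∫ x : ℝ, conj (hfun t φ x) * hfun t ψ x := by
    rw [Xop_e, Xop_e]
    exact inner_toLp (hfun_memLp φ.2 t) (hfun_memLp ψ.2 t)
  have h4 : ⟪Kop t (e φ), Kop t (e ψ)⟫_ℂ = (∫ y : ℝ, conj (wfun 1 t φ y) * wfun 1 t ψ y) +
      ∫ y : ℝ, conj (wfun (-1) t φ y) * wfun (-1) t ψ y := by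
    rw [WithLp.prod_inner_apply]
    have a1 : (Kop t (e φ)).ofLp.1 = wop 1 t φ := Wop_e 1 t (Or.inl rfl) φ
    have a2 : (Kop t (e φ)).ofLp.2 = wop (-1) t φ := Wop_e (-1) t (Or.inr rfl) φ
    have b1 : (Kop t (e ψ)).ofLp.1 = wop 1 t ψ := Wop_e 1 t (Or.inl rfl) ψ
    have b2 : (Kop t (e ψ)).ofLp.2 = wop (-1) t ψ := Wop_e (-1) t (Or.inr rfl) ψ
    rw [a1, a2, b1, b2]
    exact congrArg₂ (· + ·) (inner_toLp (wfun_memLp φ.2 1 t) (wfun_memLp ψ.2 1 t))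
      (inner_toLp (wfun_memLp φ.2 (-1) t) (wfun_memLp ψ.2 (-1) t))
  show ⟪Dop (e φ), Dop (e ψ)⟫_ℂ + ⟪Nop (e φ), Nop (e ψ)⟫_ℂ / 4 - ⟪Xop t (e φ), Xop t (e ψ)⟫_ℂ -
    ⟪Kop t (e φ), Kop t (e ψ)⟫_ℂ = _
  rw [h1, h2, h3, h4]

theorem inner_N_e (φ ψ : Core) : ⟪Nop (e φ), Nop (e ψ)⟫_ℂ =
    ∫ p : ℝ × ℝ, conj ((φ : ℝ × ℝ → ℂ) p) * (ψ : ℝ × ℝ → ℂ) p := by
  rw [Nop_e, Nop_e, inner_toLp]

/-! ### Reflection -/

/-- the reflection -/
def refl (p : ℝ × ℝ) : ℝ × ℝ := (-p.1, p.2)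

theorem refl_mp : MeasurePreserving refl (volume : Measure (ℝ × ℝ)) volume := by
  rw [Measure.volume_eq_prod]
  exact (Measure.measurePreserving_neg (volume : Measure ℝ)).prod (MeasurePreserving.id volume)

theorem refl_refl (p : ℝ × ℝ) : refl (refl p) = p := by
  unfold refl; simp

theorem refl_cont : Continuous refl := by
  unfold refl; fun_prop

theorem refl_emb : MeasurableEmbedding refl := by
  have : Function.LeftInverse refl refl := refl_refl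
  exact MeasurableEmbedding.of_measurable_inverse refl_cont.measurable
    (by rw [Set.range_eq_univ.2 this.surjective]; exact MeasurableSet.univ) refl_cont.measurable this

theorem int_zero2 {F : ℝ × ℝ → ℂ} (h : ∀ p, F (refl p) = -F p) : ∫ p, F p = 0 := by
  have h1 : ∫ p, F (refl p) = ∫ p, F p := refl_mp.integral_comp refl_emb F
  simp_rw [h, integral_neg] at h1
  have h2 : (2 : ℂ) * ∫ p, F p = 0 := by linear_combination -h1
  simpa using h2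

theorem int_zero1 {F : ℝ → ℂ} (h : ∀ x, F (-x) = -F x) : ∫ x, F x = 0 := by
  have h1 : ∫ x, F (-x) = ∫ x, F x := integral_neg_eq_self F volume
  simp_rw [h, integral_neg] at h1
  have h2 : (2 : ℂ) * ∫ p, F p = 0 := by linear_combination -h1
  simpa using h2

/-- the reflection as a linear map -/
def reflL : ℝ × ℝ →L[ℝ] ℝ × ℝ :=
  (-(ContinuousLinearMap.fst ℝ ℝ ℝ)).prod (ContinuousLinearMap.snd ℝ ℝ ℝ)

theorem reflL_apply (p : ℝ × ℝ) : reflL p = refl p := rfl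

theorem fderiv_refl {φ : ℝ × ℝ → ℂ} (h : φ ∈ Core) (p v : ℝ × ℝ) :
    fderiv ℝ (fun q => φ (refl q)) p v = fderiv ℝ φ (refl p) (refl v) := by
  have h1 : HasFDerivAt refl reflL p := reflL.hasFDerivAt
  have h2 : HasFDerivAt φ (fderiv ℝ φ (refl p)) (refl p) := (core_diff h _).hasFDerivAt
  have h3 := h2.comp p h1
  have h4 : (fun q => φ (refl q)) = φ ∘ refl := rfl
  rw [h4, h3.fderiv]
  rfl

theorem refl_e1 : refl (1, 0) = -(1, 0) := by unfold refl; simp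
theorem refl_e2 : refl (0, 1) = (0, 1) := by unfold refl; simp

theorem even_dX {φ : ℝ × ℝ → ℂ} (h : φ ∈ Core) (he : IsEven φ) (p : ℝ × ℝ) :
    dX φ (refl p) = -dX φ p := by
  have h1 : (fun q => φ (refl q)) = φ := funext fun q => he q.1 q.2
  have h2 := fderiv_refl h p (1, 0)
  rw [h1, refl_e1, map_neg] at h2
  unfold dX
  rw [h2, neg_neg]

theorem even_dY {φ : ℝ × ℝ → ℂ} (h : φ ∈ Core) (he : IsEven φ) (p : ℝ × ℝ) :
    dY φ (refl p) = dY φ p := by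
  have h1 : (fun q => φ (refl q)) = φ := funext fun q => he q.1 q.2
  have h2 := fderiv_refl h p (0, 1)
  rw [h1, refl_e2] at h2
  unfold dY
  rw [h2]

theorem odd_dX {φ : ℝ × ℝ → ℂ} (h : φ ∈ Core) (he : IsOdd φ) (p : ℝ × ℝ) :
    dX φ (refl p) = dX φ p := by
  have h1 : (fun q => φ (refl q)) = -φ := funext fun q => he q.1 q.2
  have h2 := fderiv_refl h p (1, 0)
  rw [h1, refl_e1, map_neg, fderiv_neg, neg_apply, neg_inj] at h2
  unfold dX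
  rw [h2]

theorem odd_dY {φ : ℝ × ℝ → ℂ} (h : φ ∈ Core) (he : IsOdd φ) (p : ℝ × ℝ) :
    dY φ (refl p) = -dY φ p := by
  have h1 : (fun q => φ (refl q)) = -φ := funext fun q => he q.1 q.2
  have h2 := fderiv_refl h p (0, 1)
  rw [h1, refl_e2, fderiv_neg, neg_apply] at h2
  unfold dY
  rw [← h2]

theorem orth_N {φ ψ : Core} (hφ : IsEven φ) (hψ : IsOdd ψ) : ⟪Nop (e φ), Nop (e ψ)⟫_ℂ = 0 := by
  rw [inner_N_e]
  refine int_zero2 fun p => ?_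
  have h1 : (φ : ℝ × ℝ → ℂ) (refl p) = (φ : ℝ × ℝ → ℂ) p := hφ p.1 p.2
  have h2 : (ψ : ℝ × ℝ → ℂ) (refl p) = -(ψ : ℝ × ℝ → ℂ) p := hψ p.1 p.2
  rw [h1, h2]
  ring

theorem orth_B (t : ℝ) {φ ψ : Core} (hφ : IsEven φ) (hψ : IsOdd ψ) :
    (fam t).B (e φ) (e ψ) = 0 := by
  have h0 := orth_N hφ hψ
  rw [inner_N_e] at h0
  have h1 : ∫ p : ℝ × ℝ, conj (dX φ p) * dX ψ p = 0 := by
    refine int_zero2 fun p => ?_
    rw [even_dX φ.2 hφ, odd_dX ψ.2 hψ, map_neg]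
    ring
  have h2 : ∫ p : ℝ × ℝ, conj (dY φ p) * dY ψ p = 0 := by
    refine int_zero2 fun p => ?_
    rw [even_dY φ.2 hφ, odd_dY ψ.2 hψ]
    ring
  have h3 : ∫ x : ℝ, conj (hfun t φ x) * hfun t ψ x = 0 := by
    refine int_zero1 fun x => ?_
    have a1 : hgt t (-x) = hgt t x := by unfold hgt; rw [abs_neg]
    have a2 : hfun t φ (-x) = hfun t φ x := by
      unfold hfun; rw [a1]; exact hφ x _
    have a3 : hfun t ψ (-x) = -hfun t ψ x := by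
      unfold hfun; rw [a1]; exact hψ x _
    rw [a2, a3]
    ring
  have h4 : (∫ y : ℝ, conj (wfun (-1) t φ y) * wfun (-1) t ψ y) =
      -∫ y : ℝ, conj (wfun 1 t φ y) * wfun 1 t ψ y := by
    rw [← integral_neg]
    congr 1
    funext y
    have a2 : wfun (-1) t φ y = wfun 1 t φ y := by
      unfold wfun
      by_cases hy : y ∈ Set.Ioo (-ste) t
      · rw [Set.indicator_of_mem hy, Set.indicator_of_mem hy, one_mul, neg_one_mul]
        exact hφ _ _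
      · rw [Set.indicator_of_notMem hy, Set.indicator_of_notMem hy]
    have a3 : wfun (-1) t ψ y = -wfun 1 t ψ y := by
      unfold wfun
      by_cases hy : y ∈ Set.Ioo (-ste) t
      · rw [Set.indicator_of_mem hy, Set.indicator_of_mem hy, one_mul, neg_one_mul]
        exact hψ _ _
      · rw [Set.indicator_of_notMem hy, Set.indicator_of_notMem hy, neg_zero]
    rw [a2, a3]
    ring
  rw [B_e, h0, h1, h2, h3, h4]
  ring

theorem B_cont_right (t : ℝ) (u : V) : Continuous fun v => (fam t).B u v := by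
  unfold Abs.Forms.B
  fun_prop

theorem B_cont_left (t : ℝ) (u : V) : Continuous fun v => (fam t).B v u := by
  unfold Abs.Forms.B
  fun_prop

/-- the even sector is orthogonal to the odd one -/
theorem orth_even (t : ℝ) {φ : Core} (hφ : IsEven φ) : ∀ u ∈ So,
    (fam t).B (e φ) u = 0 ∧ ⟪Nop (e φ), Nop u⟫_ℂ = 0 := by
  refine So_ind ?_ fun ψ hψ => ⟨orth_B t hφ hψ, orth_N hφ hψ⟩
  have h1 : IsClosed {u : V | (fam t).B (e φ) u = 0} := isClosed_eq (B_cont_right t _) (by fun_prop)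
  have h2 : IsClosed {u : V | ⟪Nop (e φ), Nop u⟫_ℂ = 0} := isClosed_eq (by fun_prop) (by fun_prop)
  exact h1.inter h2

theorem orth_odd (t : ℝ) {ψ : Core} (hψ : IsOdd ψ) : ∀ u ∈ Se,
    (fam t).B (e ψ) u = 0 ∧ ⟪Nop (e ψ), Nop u⟫_ℂ = 0 := by
  refine Se_ind ?_ fun φ hφ => ⟨?_, ?_⟩
  · have h1 : IsClosed {u : V | (fam t).B (e ψ) u = 0} :=
      isClosed_eq (B_cont_right t _) (by fun_prop)
    have h2 : IsClosed {u : V | ⟪Nop (e ψ), Nop u⟫_ℂ = 0} := isClosed_eq (by fun_prop) (by fun_prop)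
    exact h1.inter h2
  · rw [← Abs.Forms.B_conj, orth_B t hφ hψ, map_zero]
  · rw [← inner_conj_symm, orth_N hφ hψ, map_zero]

theorem orth_sectors : ∀ u ∈ Se, ∀ v ∈ So, ⟪Nop u, Nop v⟫_ℂ = 0 := by
  intro u hu v hv
  revert u
  refine Se_ind ?_ fun φ hφ => (orth_even 0 hφ v hv).2
  exact isClosed_eq (by fun_prop) (by fun_prop)

/-- the reflected function -/
theorem refl_core {φ : ℝ × ℝ → ℂ} (h : φ ∈ Core) : (fun p => φ (refl p)) ∈ Core := by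
  refine ⟨h.1.comp reflL.contDiff, ?_⟩
  have h1 : HasCompactSupport (φ ∘ (Homeomorph.mk ⟨refl, refl, refl_refl, refl_refl⟩ refl_cont
    refl_cont)) := h.2.comp_homeomorph _
  exact h1

/-- decomposition into even and odd functions -/
theorem decomp (φ : Core) : ∃ φ' ψ' : Core, IsEven φ' ∧ IsOdd ψ' ∧ φ = φ' + ψ' := by
  set ρ : Core := ⟨_, refl_core φ.2⟩ with hρ
  refine ⟨(1 / 2 : ℂ) • (φ + ρ), (1 / 2 : ℂ) • (φ - ρ), fun x y => ?_, fun x y => ?_, ?_⟩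
  · show (1 / 2 : ℂ) * ((φ : ℝ × ℝ → ℂ) (-x, y) + (φ : ℝ × ℝ → ℂ) (-(-x), y)) =
      (1 / 2 : ℂ) * ((φ : ℝ × ℝ → ℂ) (x, y) + (φ : ℝ × ℝ → ℂ) (-x, y))
    rw [neg_neg, add_comm]
  · show (1 / 2 : ℂ) * ((φ : ℝ × ℝ → ℂ) (-x, y) - (φ : ℝ × ℝ → ℂ) (-(-x), y)) =
      -((1 / 2 : ℂ) * ((φ : ℝ × ℝ → ℂ) (x, y) - (φ : ℝ × ℝ → ℂ) (-x, y)))
    rw [neg_neg]
    ring
  · rw [← smul_add]
    have : φ + ρ + (φ - ρ) = (2 : ℂ) • φ := by
      rw [two_smul]; abel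
    rw [this, smul_smul]
    norm_num

/-- the eigenvalue equation for all functions of the core -/
theorem EL_even (t : ℝ) {m : ℝ} {u : V} (hu : u ∈ Se)
    (h : ∀ v ∈ Se, (fam t).B v u = m * ⟪Nop v, Nop u⟫_ℂ) (φ : Core) :
    (fam t).B (e φ) u = m * ⟪Nop (e φ), Nop u⟫_ℂ := by
  obtain ⟨φ', ψ', h1, h2, rfl⟩ := decomp φ
  rw [map_add, Abs.Forms.B_add_left, map_add, inner_add_left, h _ (e_mem_Se h1),
    (orth_odd t h2 u hu).1, (orth_odd t h2 u hu).2]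
  ring

theorem EL_odd (t : ℝ) {m : ℝ} {u : V} (hu : u ∈ So)
    (h : ∀ v ∈ So, (fam t).B v u = m * ⟪Nop v, Nop u⟫_ℂ) (φ : Core) :
    (fam t).B (e φ) u = m * ⟪Nop (e φ), Nop u⟫_ℂ := by
  obtain ⟨φ', ψ', h1, h2, rfl⟩ := decomp φ
  rw [map_add, Abs.Forms.B_add_left, map_add, inner_add_left, h _ (e_mem_So h2),
    (orth_even t h1 u hu).1, (orth_even t h1 u hu).2]
  ring

end

end Pool.Agent.U469.DE
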